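import Pool.Agent.R905.WM.Lin

/-!
# Operators without Jordan blocks of size two
-/

set_option autoImplicit false
set_option linter.all false

open Pool.Agent.R905.WM

namespace Pool.Agent.R908.SS

section

variable {E : Type} [Field E] {V V' : Type} [AddCommGroup V] [Module E V] [AddCommGroup V']
  [Module E V']

/-- `f` has no Jordan block of size at least two for the eigenvalue `μ`. -/
def NB (f : Module.End E V) (μ : E) : Prop :=
  ∀ x : V, f (f x - μ • x) = μ • (f x - μ • x) → f x = μ • x

theorem nb_of_iSup {f : Module.End E V} (h : ⨆ μ, f.eigenspace μ = ⊤) (μ : E) : NB f μ := by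
  intro x hx
  rw [← sub_eq_zero]
  have h1 : f x - μ • x ∈ ⨆ ν, ⨆ (_ : ν ≠ μ), f.eigenspace ν := by
    have h2 : (⊤ : Submodule E V) ≤
        (⨆ ν, ⨆ (_ : ν ≠ μ), f.eigenspace ν).comap (f - μ • (1 : Module.End E V)) := by
      rw [← h]
      refine iSup_le fun ν y hy => ?_
      rw [Submodule.mem_comap]
      rw [Module.End.mem_eigenspace_iff] at hy
      have h3 : (f - μ • (1 : Module.End E V)) y = (ν - μ) • y := by
        rw [LinearMap.sub_apply, hy, sub_smul]
        rfl
      rw [h3]
      by_cases hν : ν = μ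
      · rw [hν, sub_self, zero_smul]
        exact Submodule.zero_mem _
      · refine Submodule.smul_mem _ _ ?_
        refine Submodule.mem_iSup_of_mem ν (Submodule.mem_iSup_of_mem hν ?_)
        exact Module.End.mem_eigenspace_iff.2 hy
    exact h2 (Submodule.mem_top (x := x))
  have h2 : f x - μ • x ∈ f.eigenspace μ := Module.End.mem_eigenspace_iff.2 hx
  exact Submodule.disjoint_def.1 (f.eigenspaces_iSupIndep μ) _ h2 h1

theorem eq_of_pow {f : Module.End E V} {μ : E} (h : NB f μ) (k : ℕ) :
    ∀ x : V, ((f - μ • (1 : Module.End E V)) ^ k) x = 0 → f x = μ • x := by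
  have key : ∀ (k : ℕ) (x : V), ((f - μ • (1 : Module.End E V)) ^ (k + 1)) x = 0 →
      f x = μ • x := by
    intro k
    induction k with
    | zero =>
      intro x hx
      rw [zero_add, pow_one, LinearMap.sub_apply] at hx
      exact sub_eq_zero.1 hx
    | succ k ih =>
      intro x hx
      apply h
      apply ih
      rw [pow_succ] at hx
      exact hx
  intro x hx
  rcases k with _ | k
  · rw [pow_zero] at hx
    have : x = 0 := hx
    rw [this, map_zero, smul_zero]
  · exact key k x hx

theorem maxGen_eq {f : Module.End E V} {μ : E} (h : NB f μ) :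
    f.maxGenEigenspace μ = f.eigenspace μ := by
  apply le_antisymm
  · intro x hx
    rw [Module.End.mem_maxGenEigenspace] at hx
    obtain ⟨k, hk⟩ := hx
    exact Module.End.mem_eigenspace_iff.2 (eq_of_pow h k x hk)
  · intro x hx
    rw [Module.End.mem_maxGenEigenspace]
    rw [Module.End.mem_eigenspace_iff] at hx
    refine ⟨1, ?_⟩
    rw [pow_one, LinearMap.sub_apply, hx]
    exact sub_self _

theorem iSup_of_nb [IsAlgClosed E] [Module.Finite E V] {f : Module.End E V} (h : ∀ μ, NB f μ) :
    ⨆ μ, f.eigenspace μ = ⊤ := by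
  rw [← Module.End.iSup_maxGenEigenspace_eq_top f]
  exact iSup_congr fun μ => (maxGen_eq (h μ)).symm

theorem nb_sub {f : Module.End E V} {g : Module.End E V'} {u : V →ₗ[E] V'}
    (hu : Function.Injective u) (he : ∀ x, u (f x) = g (u x)) {μ : E} (h : NB g μ) : NB f μ := by
  intro x hx
  apply hu
  rw [he, map_smul]
  apply h
  have h1 := congrArg u hx
  have h2 : u (f x - μ • x) = g (u x) - μ • u x := by rw [map_sub, map_smul, he]
  rw [he, map_smul, h2] at h1
  exact h1

/-- a generalized eigenvector of a quotient lifts to a generalized eigenvector -/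
theorem exists_lift [IsAlgClosed E] [Module.Finite E V] {f : Module.End E V}
    {g : Module.End E V'} {u : V →ₗ[E] V'} (hu : Function.Surjective u)
    (he : ∀ x, u (f x) = g (u x)) {μ : E} {y : V'} (hy : y ∈ g.maxGenEigenspace μ) :
    ∃ x ∈ f.maxGenEigenspace μ, u x = y := by
  have hmap : ∀ ν x, x ∈ f.maxGenEigenspace ν → u x ∈ g.maxGenEigenspace ν := by
    intro ν x hx
    rw [Module.End.mem_maxGenEigenspace] at hx ⊢
    obtain ⟨k, hk⟩ := hx
    refine ⟨k, ?_⟩
    have h1 : ∀ (k : ℕ) (x : V), u (((f - ν • (1 : Module.End E V)) ^ k) x) =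
        ((g - ν • (1 : Module.End E V')) ^ k) (u x) := by
      intro k
      induction k with
      | zero => intro x; rfl
      | succ k ih =>
        intro x
        rw [pow_succ, pow_succ]
        change u (((f - ν • (1 : Module.End E V)) ^ k) (f x - ν • x)) =
          ((g - ν • (1 : Module.End E V')) ^ k) (g (u x) - ν • u x)
        rw [ih, map_sub, map_smul, he]
    rw [← h1, hk, map_zero]
  obtain ⟨x, rfl⟩ := hu y
  have h1 : x ∈ f.maxGenEigenspace μ ⊔ ⨆ ν, ⨆ (_ : ν ≠ μ), f.maxGenEigenspace ν := by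
    have h2 : (⊤ : Submodule E V) ≤
        f.maxGenEigenspace μ ⊔ ⨆ ν, ⨆ (_ : ν ≠ μ), f.maxGenEigenspace ν := by
      rw [← Module.End.iSup_maxGenEigenspace_eq_top f]
      refine iSup_le fun ν => ?_
      by_cases hν : ν = μ
      · rw [hν]
        exact le_sup_left
      · exact le_trans (le_iSup₂_of_le ν hν le_rfl) le_sup_right
    exact h2 Submodule.mem_top
  obtain ⟨a, ha, b, hb, hab⟩ := Submodule.mem_sup.1 h1
  refine ⟨a, ha, ?_⟩
  have h2 : u b ∈ ⨆ ν, ⨆ (_ : ν ≠ μ), g.maxGenEigenspace ν := by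
    have h3 : (⨆ ν, ⨆ (_ : ν ≠ μ), f.maxGenEigenspace ν) ≤
        (⨆ ν, ⨆ (_ : ν ≠ μ), g.maxGenEigenspace ν).comap u := by
      refine iSup₂_le fun ν hν z hz => ?_
      rw [Submodule.mem_comap]
      exact Submodule.mem_iSup_of_mem ν (Submodule.mem_iSup_of_mem hν (hmap ν z hz))
    exact h3 hb
  have h3 : u b ∈ g.maxGenEigenspace μ := by
    have h4 : u b = u x - u a := by rw [← hab, map_add, add_sub_cancel_left]
    rw [h4]
    exact Submodule.sub_mem _ hy (hmap μ a ha)
  have h4 : u b = 0 :=
    Submodule.disjoint_def.1 (g.independent_maxGenEigenspace μ) _ h3 h2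
  rw [← hab, map_add, h4, add_zero]

theorem nb_quot [IsAlgClosed E] [Module.Finite E V] {f : Module.End E V}
    {g : Module.End E V'} {u : V →ₗ[E] V'} (hu : Function.Surjective u)
    (he : ∀ x, u (f x) = g (u x)) {μ : E} (h : NB f μ) : NB g μ := by
  intro y hy
  have h1 : y ∈ g.maxGenEigenspace μ := by
    rw [Module.End.mem_maxGenEigenspace]
    refine ⟨2, ?_⟩
    rw [pow_two]
    change g (g y - μ • y) - μ • (g y - μ • y) = 0
    rw [hy, sub_self]
  obtain ⟨x, hx, rfl⟩ := exists_lift hu he h1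
  rw [maxGen_eq h, Module.End.mem_eigenspace_iff] at hx
  rw [← he, hx, map_smul]

theorem nb_smul {f : Module.End E V} {c : E} (hc : c ≠ 0) {μ : E} (h : NB (c • f) (c * μ)) :
    NB f μ := by
  intro x hx
  have h1 : (c • f) x = (c * μ) • x := by
    apply h
    have h2 : (c • f) x - (c * μ) • x = c • (f x - μ • x) := by
      rw [LinearMap.smul_apply, mul_smul, smul_sub]
    rw [h2, map_smul, LinearMap.smul_apply, hx, smul_smul, smul_smul, smul_smul]
    congr 1
    ring
  rw [LinearMap.smul_apply, mul_smul] at h1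
  exact smul_right_injective V hc h1

theorem nb_smul' {f : Module.End E V} {c : E} (hc : c ≠ 0) {μ : E} (h : NB f μ) :
    NB (c • f) (c * μ) := by
  apply nb_smul (inv_ne_zero hc)
  rwa [smul_smul, inv_mul_cancel₀ hc, one_smul, inv_mul_cancel_left₀ hc]

theorem pow_apply {f : Module.End E V} {μ : E} {x : V}
    (hx : f (f x - μ • x) = μ • (f x - μ • x)) (k : ℕ) :
    (f ^ (k + 1)) x = μ ^ (k + 1) • x + ((k + 1 : ℕ) : E) • μ ^ k • (f x - μ • x) := by
  induction k with
  | zero => simp
  | succ k ih =>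
    rw [pow_succ' f]
    change f ((f ^ (k + 1)) x) = _
    rw [ih, map_add, map_smul, map_smul, map_smul, hx]
    have h1 : f x = μ • x + (f x - μ • x) := by abel
    rw [h1]
    simp only [add_sub_cancel_left]
    simp only [smul_add, smul_smul, smul_sub]
    push_cast
    module

theorem nb_pow [CharZero E] {f : Module.End E V} (hf : Function.Injective f) {a : ℕ}
    (ha : 0 < a) {μ : E} (h : NB (f ^ a) (μ ^ a)) : NB f μ := by
  intro x hx
  by_cases hμ : μ = 0
  · subst hμ
    rw [zero_smul, sub_zero, zero_smul] at hx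
    have h1 : f x = 0 := hf (by rw [hx, map_zero])
    rw [h1, zero_smul]
  obtain ⟨k, rfl⟩ : ∃ k, a = k + 1 := ⟨a - 1, by omega⟩
  have h1 := pow_apply hx k
  have hz : ∀ j : ℕ, (f ^ j) (f x - μ • x) = μ ^ j • (f x - μ • x) := by
    intro j
    induction j with
    | zero => simp
    | succ j ih =>
      rw [pow_succ' f]
      change f ((f ^ j) (f x - μ • x)) = _
      rw [ih, map_smul, hx, smul_smul, pow_succ]
  have h2 : (f ^ (k + 1)) x = μ ^ (k + 1) • x := by
    apply h
    have h3 : (f ^ (k + 1)) x - μ ^ (k + 1) • x =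
        (((k + 1 : ℕ) : E) * μ ^ k) • (f x - μ • x) := by
      rw [h1, add_sub_cancel_left, smul_smul]
    rw [h3, map_smul, hz, smul_smul, smul_smul, mul_comm]
  rw [h1] at h2
  have h4 : (((k + 1 : ℕ) : E) * μ ^ k) • (f x - μ • x) = 0 := by
    rw [← smul_smul]
    exact add_eq_left.1 h2
  rcases smul_eq_zero.1 h4 with h5 | h5
  · exfalso
    rcases mul_eq_zero.1 h5 with h6 | h6
    · exact Nat.cast_ne_zero.2 (Nat.succ_ne_zero k) h6
    · exact pow_ne_zero k hμ h6
  · exact sub_eq_zero.1 h5

theorem iSup_pow {f : Module.End E V} (h : ⨆ μ, f.eigenspace μ = ⊤) (a : ℕ) :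
    ⨆ μ, (f ^ a).eigenspace μ = ⊤ := by
  rw [eq_top_iff, ← h]
  refine iSup_le fun μ x hx => ?_
  rw [Module.End.mem_eigenspace_iff] at hx
  refine Submodule.mem_iSup_of_mem (μ ^ a) (Module.End.mem_eigenspace_iff.2 ?_)
  induction a with
  | zero => simp
  | succ a ih =>
    rw [pow_succ' f]
    change f ((f ^ a) x) = _
    rw [ih, map_smul, hx, smul_smul, pow_succ]

/-- extensions with disjoint eigenvalues -/
theorem nb_ext {W : Type} [AddCommGroup W] [Module E W] {e : Module.End E W}
    {f : Module.End E V} {g : Module.End E V'} {i : W →ₗ[E] V} {u : V →ₗ[E] V'}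
    (hi : Function.Injective i) (hie : ∀ x, i (e x) = f (i x)) (hue : ∀ x, u (f x) = g (u x))
    (hex : Function.Exact i u) {μ : E} (hd : (∀ x, e x = μ • x → x = 0) ∨
      ∀ y, g y = μ • y → y = 0) (h1 : NB e μ) (h2 : NB g μ) : NB f μ := by
  intro x hx
  have hu : g (g (u x) - μ • u x) = μ • (g (u x) - μ • u x) := by
    have h3 := congrArg u hx
    have h4 : u (f x - μ • x) = g (u x) - μ • u x := by rw [map_sub, map_smul, hue]
    rw [hue, map_smul, h4] at h3
    exact h3
  have hy := h2 _ hu
  rcases hd with hd | hd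
  · -- the difference comes from `W`
    have h3 : u (f x - μ • x) = 0 := by rw [map_sub, map_smul, hue, hy, sub_self]
    obtain ⟨w, hw⟩ := (hex _).1 h3
    have h4 : e w = μ • w := by
      apply hi
      rw [hie, hw, hx, map_smul, hw]
    have h5 := hd w h4
    rw [h5, map_zero] at hw
    exact sub_eq_zero.1 hw.symm
  · have h3 : u x = 0 := hd _ hy
    obtain ⟨w, rfl⟩ := (hex _).1 h3
    have h4 : e w = μ • w := by
      apply h1
      apply hi
      have h5 : i (e w - μ • w) = f (i w) - μ • i w := by rw [map_sub, map_smul, hie]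
      rw [hie, map_smul, h5]
      exact hx
    rw [← hie, h4, map_smul]

theorem isWeil_pow [CharZero E] {q : ℕ} {w : ℤ} {μ : E} (h : IsWeil q w μ) (a : ℕ) :
    IsWeil (q ^ a) w (μ ^ a) := by
  obtain ⟨b, hb, hw⟩ := h
  refine ⟨b ^ a, ?_, fun σ => ?_⟩
  · rw [← hb]
    rfl
  · rw [map_pow, norm_pow, hw σ, ← Real.rpow_natCast, ← Real.rpow_mul (Nat.cast_nonneg _)]
    rw [Nat.cast_pow, ← Real.rpow_natCast (q : ℝ) a, ← Real.rpow_mul (Nat.cast_nonneg _),
      mul_comm]

end

end Pool.Agent.R908.SS
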