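import Pool.Agent.R908.SS.FrobMain

/-!
# Complete varieties: boundaries of the complements of smooth affine cubic hypersurfaces
-/

set_option autoImplicit false
set_option linter.all false

open AlgebraicGeometry CategoryTheory CategoryTheory.Limits MvPolynomial Pool.Agent.R904.CU
  Pool.Agent.R905.WM

namespace Pool.Agent.R908.SS

/-- the affine space over `k` with coordinates indexed by `σ` -/
noncomputable abbrev Aff (k : Type) [Field k] (σ : Type) : Scheme.{0} :=
  Spec (.of (MvPolynomial σ k))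

/-- its structure morphism -/
noncomputable def affMap (k : Type) [Field k] (σ : Type) : Aff k σ ⟶ Spec (.of k) :=
  Spec.map (CommRingCat.ofHom (algebraMap k (MvPolynomial σ k)))

/-- the open subscheme `F ≠ 0` of the affine space -/
noncomputable def nonzero {k : Type} [Field k] {σ : Type} (F : MvPolynomial σ k) :
    (Aff k σ).Opens := openU fun _ : Unit => F

/-- a choice of compactifications, in the class `S`, of all affine spaces over all finite fields (for
instance the projective spaces) -/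
structure Compactifications (S : ∀ (k : Type) [Field k], SchProp k) where
  P : ∀ (k : Type) [Field k] (σ : Type), Scheme.{0}
  p : ∀ (k : Type) [Field k] (σ : Type), P k σ ⟶ Spec (.of k)
  j : ∀ (k : Type) [Field k] (σ : Type), Aff k σ ⟶ P k σ
  mem : ∀ (k : Type) [Field k] [Finite k] (σ : Type) [Fintype σ], S k (P k σ) (p k σ)
  isOpen : ∀ (k : Type) [Field k] [Finite k] (σ : Type) [Fintype σ], IsOpenImmersion (j k σ)
  comm : ∀ (k : Type) [Field k] [Finite k] (σ : Type) [Fintype σ], j k σ ≫ p k σ = affMap k σ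

/-- `D` is a closed subscheme of the compactification with complement the open subscheme `F ≠ 0` of the
affine space. (For the projective space and `F` of degree three, `D` is the union of the hyperplane at
infinity and of the closure of `F = 0`, a hypersurface of degree four.) -/
def Compactifications.IsBoundary {S : ∀ (k : Type) [Field k], SchProp k} (M : Compactifications S)
    {k : Type} [Field k] {σ : Type} (F : MvPolynomial σ k) {D : Scheme.{0}} (i : D ⟶ M.P k σ) :
    Prop :=
  IsClosedImmersion i ∧ Set.range i = (Set.range ((nonzero F).ι ≫ M.j k σ))ᶜ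

/-- There is an exact sequence `A → B → C → D`. -/
def FrobModule.ExactAt₂ {E : Type} [Field E] (A B C D : FrobModule E) : Prop :=
  ∃ (a : FrobModule.Lin A B) (b : FrobModule.Lin B C) (c : FrobModule.Lin C D),
    FrobModule.Equivariant A B a ∧ FrobModule.Equivariant B C b ∧ FrobModule.Equivariant C D c ∧
    Function.Exact a b ∧ Function.Exact b c

/-- for a closed subscheme `Z` of `X` and its complement `U`: the exact sequences
`H^n_c(X) → H^n_c(Z) → H^{n+1}_c(U) → H^{n+1}_c(X)` -/
def FrobCohomology.LongExact {k : Type} [Field k] {E : Type} [Field E] (T : FrobCohomology k E) :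
    Prop :=
  ∀ (X Z U : Scheme.{0}) (f : X ⟶ Spec (.of k)) (i : Z ⟶ X) (j : U ⟶ X), SepFinType k X f →
    IsClosedImmersion i → IsOpenImmersion j → Set.range i = (Set.range j)ᶜ → ∀ n : ℤ,
    FrobModule.ExactAt₂ (T.H X f n) (T.H Z (i ≫ f) n) (T.H U (j ≫ f) (n + 1)) (T.H X f (n + 1))

section

variable {E : Type} [Field E] {V V' : Type} [AddCommGroup V] [Module E V] [AddCommGroup V']
  [Module E V']

theorem exists_lift' [IsAlgClosed E] [Module.Finite E V] {f : Module.End E V}
    {g : Module.End E V'} {u : V →ₗ[E] V'} (he : ∀ x, u (f x) = g (u x)) {μ : E} {x : V}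
    (hy : u x ∈ g.maxGenEigenspace μ) : ∃ z ∈ f.maxGenEigenspace μ, u z = u x := by
  have hmap : ∀ ν x, x ∈ f.maxGenEigenspace ν → u x ∈ g.maxGenEigenspace ν := by
    intro ν x hx
    rw [Module.End.mem_maxGenEigenspace] at hx ⊢
    obtain ⟨k, hk⟩ := hx
    refine ⟨k, ?_⟩
    have h1 : ∀ (k : ℕ) (x : V), u (((f - ν • (1 : Module.End E V)) ^ k) x) =
        ((g - ν • (1 : Module.End E V')) ^ k) (u x) := by
      intro k
      induction k with
      | zero => intro x; rfl
      | succ k ih =>
        intro x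
        rw [pow_succ, pow_succ]
        change u (((f - ν • (1 : Module.End E V)) ^ k) (f x - ν • x)) =
          ((g - ν • (1 : Module.End E V')) ^ k) (g (u x) - ν • u x)
        rw [ih, map_sub, map_smul, he]
    rw [← h1, hk, map_zero]
  have h1 : x ∈ f.maxGenEigenspace μ ⊔ ⨆ ν, ⨆ (_ : ν ≠ μ), f.maxGenEigenspace ν := by
    have h2 : (⊤ : Submodule E V) ≤
        f.maxGenEigenspace μ ⊔ ⨆ ν, ⨆ (_ : ν ≠ μ), f.maxGenEigenspace ν := by
      rw [← Module.End.iSup_maxGenEigenspace_eq_top f]
      refine iSup_le fun ν => ?_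
      by_cases hν : ν = μ
      · rw [hν]
        exact le_sup_left
      · exact le_trans (le_iSup₂_of_le ν hν le_rfl) le_sup_right
    exact h2 Submodule.mem_top
  obtain ⟨a, ha, b, hb, hab⟩ := Submodule.mem_sup.1 h1
  refine ⟨a, ha, ?_⟩
  have h2 : u b ∈ ⨆ ν, ⨆ (_ : ν ≠ μ), g.maxGenEigenspace ν := by
    have h3 : (⨆ ν, ⨆ (_ : ν ≠ μ), f.maxGenEigenspace ν) ≤
        (⨆ ν, ⨆ (_ : ν ≠ μ), g.maxGenEigenspace ν).comap u := by
      refine iSup₂_le fun ν hν z hz => ?_
      rw [Submodule.mem_comap]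
      exact Submodule.mem_iSup_of_mem ν (Submodule.mem_iSup_of_mem hν (hmap ν z hz))
    exact h3 hb
  have h3 : u b ∈ g.maxGenEigenspace μ := by
    have h4 : u b = u x - u a := by rw [← hab, map_add, add_sub_cancel_left]
    rw [h4]
    exact Submodule.sub_mem _ hy (hmap μ a ha)
  have h4 : u b = 0 :=
    Submodule.disjoint_def.1 (g.independent_maxGenEigenspace μ) _ h3 h2
  rw [← hab, map_add, h4, add_zero]

end

/-- If `A → B → C` is exact, `C` is pure of weight `v` and `A` has no Jordan blocks of weight `w ≠ v`,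
then `B` has no Jordan blocks of weight `w`. -/
theorem nb_of_exact {E : Type} [Field E] [CharZero E] [IsAlgClosed E] {A B C : FrobModule E}
    {b : FrobModule.Lin A B} {c : FrobModule.Lin B C} (hb : FrobModule.Equivariant A B b)
    (hc : FrobModule.Equivariant B C c) (hex : Function.Exact b c) {q : ℕ} (hq : 2 ≤ q)
    {v w : ℤ} (hvw : w ≠ v) (hC : C.IsPure q v) (hA : A.NoBlocks q w) : B.NoBlocks q w := by
  intro μ hμ x hx
  have h0 : ∀ y : C.V, C.F y = μ • y → y = 0 := by
    intro y hy
    by_contra hy0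
    exact hvw (isWeil_unique hq hμ (hC μ y hy0 hy))
  have h1 : c (B.F x - μ • x) = 0 := h0 _ (by rw [← hc, hx, map_smul])
  have h2 : c x = 0 := by
    apply h0
    rw [map_sub, map_smul, hc, sub_eq_zero] at h1
    exact h1
  obtain ⟨y, rfl⟩ := (hex x).1 h2
  have h3 : b y ∈ B.F.maxGenEigenspace μ := by
    rw [Module.End.mem_maxGenEigenspace]
    refine ⟨2, ?_⟩
    rw [pow_two]
    change B.F (B.F (b y) - μ • b y) - μ • (B.F (b y) - μ • b y) = 0
    rw [hx, sub_self]
  obtain ⟨z, hz, hzy⟩ := exists_lift' hb h3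
  rw [maxGen_eq (hA μ hμ), Module.End.mem_eigenspace_iff] at hz
  rw [← hzy, ← hb z, hz, map_smul]

section

variable {k : Type} [Field k] [Finite k] {E : Type} [Field E] [CharZero E] [IsAlgClosed E]
  {T : FrobCohomology k E} {S : ∀ (k : Type) [Field k], SchProp k} (M : Compactifications S)

theorem nb_of_boundary {q : ℕ} (hq : 2 ≤ q) (hT : T.IsCohomology q) (hX : T.LongExact)
    (hP : T.Pure (S k) q) (hS : HasTorsors (S k)) {σ : Type} [Fintype σ] {F : MvPolynomial σ k}
    (hF : IsSmoothCubic F) {n : ℤ}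
    (h : ∀ (D : Scheme.{0}) (i : D ⟶ M.P k σ), M.IsBoundary F i →
      (T.H D (i ≫ M.p k σ) n).NoBlocks q (n - 1)) :
    (T.ofHyp F n).NoBlocks q (n - 1) := by
  have hF0 := GradedCohomology.ne_zero_of_isSmoothCubic hF
  haveI := M.isOpen k σ
  -- a closed subscheme with the right support
  let O : (M.P k σ).Opens := ((nonzero F).ι ≫ M.j k σ).opensRange
  let Z : TopologicalSpace.Closeds (M.P k σ) := ⟨(O : Set (M.P k σ))ᶜ, O.isOpen.isClosed_compl⟩
  let I := Scheme.IdealSheafData.vanishingIdeal Z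
  have hrI : Set.range I.subschemeι = (Set.range ((nonzero F).ι ≫ M.j k σ))ᶜ := by
    rw [Scheme.IdealSheafData.range_subschemeι]
    have h1 := Scheme.IdealSheafData.coe_support_vanishingIdeal Z
    rw [h1]
    change ((((nonzero F).ι ≫ M.j k σ).opensRange : Set (M.P k σ)))ᶜ = _
    rw [Scheme.Hom.coe_opensRange]
  have hB : M.IsBoundary F I.subschemeι := ⟨inferInstance, hrI⟩
  have hD := h _ _ hB
  have hPS := (hS _ _ (M.mem k σ)).1
  obtain ⟨a, b, c, ha, hb, hc, hab, hbc⟩ := hX (M.P k σ) I.subscheme (nonzero F) (M.p k σ)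
    I.subschemeι ((nonzero F).ι ≫ M.j k σ) hPS inferInstance inferInstance hrI n
  have h2 : (T.H (nonzero F) (((nonzero F).ι ≫ M.j k σ) ≫ M.p k σ) (n + 1)).NoBlocks q (n - 1) :=
    nb_of_exact hb hc hbc hq (v := n + 1) (by omega) (hP _ _ (M.mem k σ) (n + 1)) hD
  rw [Category.assoc, M.comm k σ] at h2
  have h3 := FrobCohomology.nb_closed hq hT (fun _ : Unit => F) ⟨(), hF0⟩ n (n - 1) h2
  have hI : Ideal.span {F} = Ideal.span (Set.range fun _ : Unit => F) := by
    rw [Set.range_const]
  let e : (MvPolynomial σ k ⧸ Ideal.span (Set.range fun _ : Unit => F)) ≃ₐ[k]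
      (MvPolynomial σ k ⧸ Ideal.span {F}) := Ideal.quotientEquivAlgOfEq k hI.symm
  refine FrobCohomology.nb_iso hq hT (hyp F) _
    (Scheme.Spec.mapIso e.toRingEquiv.toCommRingCatIso.op) ?_
    ((cls_sepFinType k).affine _ inferInstance) ((cls_sepFinType k).affine _ inferInstance) _ _ h3
  change Spec.map (CommRingCat.ofHom e.toRingEquiv.toRingHom) ≫ _ = _
  unfold hyp
  rw [← Spec.map_comp, ← CommRingCat.ofHom_comp]
  congr 2

end

/-- the properties of the class `C` of the complete schemes -/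
structure IsCompleteClass (S C : ∀ (k : Type) [Field k], SchProp k) : Prop where
  mem : ∀ (k : Type) [Field k] [Finite k] X f, S k X f → C k X f
  finType : ∀ (k : Type) [Field k] [Finite k] X f, C k X f → SepFinType k X f
  closed : ∀ (k : Type) [Field k] [Finite k] (X Z : Scheme.{0}) (f : X ⟶ Spec (.of k))
    (i : Z ⟶ X), S k X f → IsClosedImmersion i → C k Z (i ≫ f)

/-- **Main theorem for complete varieties.** -/
theorem complete_tfae {E : Type} [Field E] [CharZero E] [IsAlgClosed E] {T : FrobOverFields E}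
    {S C : ∀ (k : Type) [Field k], SchProp k} (hT : FrobTheory T S)
    (hX : ∀ (k : Type) [Field k] [Finite k], (T k).LongExact) (hC : IsCompleteClass S C)
    (M : Compactifications S) {k₀ : Type} [Field k₀] [Finite k₀] :
    [∀ (k : Type) [Field k] [Finite k] [Algebra k₀ k] (X : Scheme.{0}) (f : X ⟶ Spec (.of k)),
       C k X f → ∀ n : ℤ, ((T k).H X f n).Semisimple,
     ∀ (k : Type) [Field k] [Finite k] [Algebra k₀ k] (σ : Type) [Fintype σ] (d : ℕ),
       Fintype.card σ = d + 1 → ∀ F : MvPolynomial σ k, IsSmoothCubic F →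
       ∀ (D : Scheme.{0}) (i : D ⟶ M.P k σ), M.IsBoundary F i →
       ((T k).H D (i ≫ M.p k σ) d).NoBlocks (Nat.card k) (d - 1),
     ∀ (σ : Type) [Fintype σ] (F : MvPolynomial σ k₀), IsSmoothCubic F →
       ∀ (D : Scheme.{0}) (i : D ⟶ M.P k₀ σ), M.IsBoundary F i → ∀ n : ℤ,
       ((T k₀).H D (i ≫ M.p k₀ σ) n).NoBlocks (Nat.card k₀) (n - 1)].TFAE := by
  have key := frob_tfae hT (k₀ := k₀) (C := C) hC.mem hC.finType
  tfae_have 1 → 2 := fun h k _ _ _ σ _ d _ F _ D i hi =>
    (h k D _ (hC.closed k _ _ _ _ (M.mem k σ) hi.1) _).noBlocks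
  tfae_have 1 → 3 := fun h σ _ F _ D i hi n =>
    (h k₀ D _ (hC.closed k₀ _ _ _ _ (M.mem k₀ σ) hi.1) n).noBlocks
  tfae_have 2 → 1 := by
    intro h
    refine (key.out 3 1).1 ?_
    intro k _ _ _ σ _ d hσ F hF
    exact nb_of_boundary M (card_ge k) (hT.cohomology k) (hX k) (hT.pure k) (hT.torsors k) hF
      (fun D i hi => h k σ d hσ F hF D i hi)
  tfae_have 3 → 1 := by
    intro h
    refine (key.out 4 1).1 ?_
    intro σ _ F hF n
    exact nb_of_boundary M (card_ge k₀) (hT.cohomology k₀) (hX k₀) (hT.pure k₀) (hT.torsors k₀) hF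
      (fun D i hi => h σ F hF D i hi n)
  tfae_finish

end Pool.Agent.R908.SS
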