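import Pool.Agent.R908.SS.Lefschetz

/-!
# From finitely generated fields of characteristic zero to cubic hypersurfaces over `ℚ`
-/

set_option autoImplicit false
set_option linter.all false

open AlgebraicGeometry CategoryTheory CategoryTheory.Limits MvPolynomial Pool.Agent.R904.CU

namespace Pool.Agent.R908.SS

/-- the absolute Galois group -/
abbrev Gal (k : Type) [Field k] : Type := Field.absoluteGaloisGroup k

/-- the graded pieces of the cohomology with compact supports over all fields -/
abbrev CohomologyOverFields (E : Type) [Field E] : Type 1 :=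
  ∀ (k : Type) [Field k], GradedCohomology k E (Gal k)

/-- `X`, a scheme over the extension `L` of `K`, as a scheme over `K` -/
noncomputable def res (K : Type) {L : Type} [Field K] [Field L] [Algebra K L] {X : Scheme.{0}}
    (f : X ⟶ Spec (.of L)) : X ⟶ Spec (.of K) :=
  f ≫ Spec.map (CommRingCat.ofHom (algebraMap K L))

/-- If `X` is a member of `S` over the number field `L`, then also over `ℚ`, and the cohomology of `X`
over `ℚ` is induced from the one over `L`. -/
def Restriction {E : Type} [Field E] (T : CohomologyOverFields E)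
    (S : ∀ (k : Type) [Field k], SchProp k) : Prop :=
  ∀ (L : Type) [Field L] [NumberField L] (X : Scheme.{0}) (f : X ⟶ Spec (.of L)), S L X f →
    S ℚ X (res ℚ f) ∧ ∀ n : ℤ, ∃ φ : Gal L →* Gal ℚ,
      Rep.IsInducedSummand φ ((T L).H X f n n) ((T ℚ).H X (res ℚ f) n n)

/-- The theorem of Serre and Terasoma: for a member `X` of `S` over a field `k` which is finitely
generated over `ℚ`, there is a member `Y` over a number field (a fibre of a model of `X`) such that the
Galois representations on `H^n(X)` and `H^n(Y)` have the same image. -/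
def Specialization {E : Type} [Field E] (T : CohomologyOverFields E)
    (S : ∀ (k : Type) [Field k], SchProp k) : Prop :=
  ∀ (k : Type) [Field k] [CharZero k], Algebra.EssFiniteType ℚ k → ∀ (X : Scheme.{0})
    (f : X ⟶ Spec (.of k)), S k X f → ∀ n : ℤ, ∃ (L : Type) (_ : Field L) (_ : NumberField L)
      (Y : Scheme.{0}) (g : Y ⟶ Spec (.of L)), S L Y g ∧
      Rep.SameImage ((T k).H X f n n) ((T L).H Y g n n)

variable {E : Type} [Field E] {T : CohomologyOverFields E} {c : Gal ℚ → Eˣ}
  {S : ∀ (k : Type) [Field k], SchProp k}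

theorem number_fields (hT : (T ℚ).IsCohomology c) (hA : (T ℚ).Artin) (hL : (T ℚ).WeakLefschetz c)
    (hS : HasTorsors (S ℚ)) (hW : (T ℚ).HasWeights (S ℚ)) (hR : Restriction T S) :
    (∀ (L : Type) [Field L] [NumberField L] (X : Scheme.{0}) (f : X ⟶ Spec (.of L)), S L X f →
      ∀ n : ℤ, ((T L).H X f n n).Semisimple) ↔
    ∀ (σ : Type) [Fintype σ] (d : ℕ), Fintype.card σ = d + 1 → ∀ F : MvPolynomial σ ℚ,
      IsSmoothCubic F → ((T ℚ).ofHyp F d (d - 1)).Semisimple := by
  have key := GradedCohomology.tfae hT hA hL hS hW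
  constructor
  · intro h
    exact (key.out 0 2).1 (fun X f hX n => h ℚ X f hX n)
  · intro h L _ _ X f hX n
    obtain ⟨h1, h2⟩ := hR L X f hX
    obtain ⟨φ, hφ⟩ := h2 n
    have h3 : ∀ X f, S ℚ X f → ∀ n : ℤ, ((T ℚ).H X f n n).Semisimple := (key.out 2 0).1 h
    exact (h3 X (res ℚ f) h1 n).ofInduced hφ

theorem finitely_generated_fields (hT : (T ℚ).IsCohomology c) (hA : (T ℚ).Artin) (hL : (T ℚ).WeakLefschetz c)
    (hS : HasTorsors (S ℚ)) (hW : (T ℚ).HasWeights (S ℚ)) (hR : Restriction T S)
    (hP : Specialization T S) :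
    (∀ (k : Type) [Field k] [CharZero k], Algebra.EssFiniteType ℚ k → ∀ (X : Scheme.{0})
      (f : X ⟶ Spec (.of k)), S k X f → ∀ n : ℤ, ((T k).H X f n n).Semisimple) ↔
    ∀ (σ : Type) [Fintype σ] (d : ℕ), Fintype.card σ = d + 1 → ∀ F : MvPolynomial σ ℚ,
      IsSmoothCubic F → ((T ℚ).ofHyp F d (d - 1)).Semisimple := by
  rw [← number_fields hT hA hL hS hW hR]
  constructor
  · intro h L _ _ X f hX n
    exact h L inferInstance X f hX n
  · intro h k _ _ hk X f hX n
    obtain ⟨L, _, _, Y, g, hY, hs⟩ := hP k hk X f hX n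
    exact (h L Y g hY n).sameImage hs

end Pool.Agent.R908.SS
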