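import Pool.Agent.R904.EL.Elem
import Pool.Agent.R908.SS.Fields

/-!
# Elementary presentations over prime fields and the hypersurfaces `∑ yₖ gₖ = 1`
-/

set_option autoImplicit false
set_option linter.all false

open AlgebraicGeometry CategoryTheory CategoryTheory.Limits MvPolynomial Pool.Agent.R904.CU
  Pool.Agent.R904.EL

namespace Pool.Agent.R908.SS

section

variable {R : Type} [CommRing R] {K : Set R} {B : Type} [CommRing B] [Algebra R B]

theorem reach_const (h1K : 1 ∈ K) (S : Set B) {a : R} (ha : a ∈ Subring.closure K) :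
    Reach K S (algebraMap R B a) := by
  induction ha using Subring.closure_induction with
  | mem x hx => exact fun T _ hT => hT.const hx
  | zero =>
    rw [map_zero]
    exact fun T _ hT => hT.zero
  | one => exact fun T _ hT => hT.const h1K
  | add x y _ _ hx hy =>
    rw [map_add]
    exact hx.two hy _ fun T h1 h2 hT => hT.add h1 h2
  | neg x _ hx =>
    rw [map_neg]
    exact hx.two hx _ fun T h1 _ hT => hT.neg h1
  | mul x y _ _ hx hy =>
    rw [map_mul]
    exact hx.two hy _ fun T h1 h2 hT => hT.mul h1 h2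

/-- the polynomials which are reached from the variables, with coefficients in the subring -/
def Good (K : Set R) (n : ℕ) (b : MvPolynomial (Fin n) R) : Prop :=
  Reach K (Set.range (X : Fin n → MvPolynomial (Fin n) R)) b

theorem Good.add {n : ℕ} {p q : MvPolynomial (Fin n) R} (hp : Good K n p) (hq : Good K n q) :
    Good K n (p + q) := hp.two hq _ fun T h1 h2 hT => hT.add h1 h2

theorem Good.mul {n : ℕ} {p q : MvPolynomial (Fin n) R} (hp : Good K n p) (hq : Good K n q) :
    Good K n (p * q) := hp.two hq _ fun T h1 h2 hT => hT.mul h1 h2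

theorem good_X {n : ℕ} (i : Fin n) : Good K n (X i) := by
  intro T hST hT
  exact hT.mono (Set.insert_subset (hST ⟨i, rfl⟩) subset_rfl)

theorem good_C (h1K : 1 ∈ K) {n : ℕ} {a : R} (ha : a ∈ Subring.closure K) :
    Good K n (C a) := by
  unfold Good
  rw [← MvPolynomial.algebraMap_eq]
  exact reach_const h1K _ ha

/-- every polynomial has a multiple by a constant `b ≠ 0` which is good -/
theorem exists_good [IsDomain R] (h1K : 1 ∈ K)
    (hfrac : ∀ r : R, ∃ b ∈ Subring.closure K, b ≠ 0 ∧ b * r ∈ Subring.closure K) {n : ℕ}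
    (p : MvPolynomial (Fin n) R) :
    ∃ b ∈ Subring.closure K, b ≠ 0 ∧ Good K n (C b * p) := by
  induction p using MvPolynomial.induction_on with
  | C a =>
    obtain ⟨b, hb, hb0, hba⟩ := hfrac a
    refine ⟨b, hb, hb0, ?_⟩
    rw [← C_mul]
    exact good_C h1K hba
  | add p q hp hq =>
    obtain ⟨b, hb, hb0, h1⟩ := hp
    obtain ⟨c, hc, hc0, h2⟩ := hq
    refine ⟨b * c, Subring.mul_mem _ hb hc, mul_ne_zero hb0 hc0, ?_⟩
    have h3 : C (b * c) * (p + q) = C c * (C b * p) + C b * (C c * q) := by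
      rw [C_mul]
      ring
    rw [h3]
    exact ((good_C h1K hc).mul h1).add ((good_C h1K hb).mul h2)
  | mul_X p i hp =>
    obtain ⟨b, hb, hb0, h1⟩ := hp
    refine ⟨b, hb, hb0, ?_⟩
    rw [← mul_assoc]
    exact h1.mul (good_X i)

theorem hasPres_list' {n : ℕ} (l : List (MvPolynomial (Fin n) R)) (hl : ∀ p ∈ l, Good K n p) :
    HasPres K (MvPolynomial (Fin n) R)
      (Set.range (X : Fin n → MvPolynomial (Fin n) R) ∪ {b | b ∈ l}) := by
  induction l with
  | nil => exact (hasPres_mvPolynomial n).mono (by simp)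
  | cons a l ih =>
    refine (hl a List.mem_cons_self _ Set.subset_union_left
      (ih fun p hp => hl p (List.mem_cons_of_mem _ hp))).mono ?_
    rintro x (hx | hx)
    · exact Or.inr (Or.inl hx)
    · rcases List.mem_cons.1 hx with rfl | hx
      · exact Or.inl rfl
      · exact Or.inr (Or.inr hx)

end

theorem IsElem.ne_zero {R σ : Type} [CommRing R] [Nontrivial R] {p : MvPolynomial σ R}
    (hp : IsElem ({1} : Set R) p) : p ≠ 0 := by
  intro h
  rcases hp with ⟨i, j, k, rfl⟩ | ⟨i, j, k, rfl⟩ | ⟨i, a, ha, rfl⟩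
  · have h1 := congrArg (aeval (fun _ => (Polynomial.X : Polynomial R))) h
    rw [map_sub, map_mul, aeval_X, aeval_X, aeval_X, map_zero] at h1
    have h2 := congrArg (fun q : Polynomial R => q.coeff 2) h1
    simp [← sq, Polynomial.coeff_X] at h2
  · have h1 := congrArg (aeval (fun _ => (Polynomial.X : Polynomial R))) h
    rw [map_sub, map_add, aeval_X, aeval_X, aeval_X, map_zero, add_sub_cancel_right] at h1
    exact Polynomial.X_ne_zero h1
  · rw [Set.mem_singleton_iff] at ha
    subst ha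
    have h1 := congrArg (aeval (fun _ => (0 : R))) h
    rw [map_sub, aeval_X, map_zero, zero_sub] at h1
    simp at h1

theorem IsElem.totalDegree_le {R σ : Type} [CommRing R] {K : Set R} {p : MvPolynomial σ R}
    (hp : IsElem K p) : p.totalDegree ≤ 2 := by
  have hX : ∀ m : σ, (X m : MvPolynomial σ R).totalDegree ≤ 1 := fun m =>
    (totalDegree_monomial_le _ _).trans (by simp)
  rcases hp with ⟨i, j, k, rfl⟩ | ⟨i, j, k, rfl⟩ | ⟨i, a, ha, rfl⟩
  · refine (totalDegree_sub _ _).trans (max_le ?_ ((hX k).trans one_le_two))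
    exact (totalDegree_mul _ _).trans (add_le_add (hX i) (hX j))
  · refine (totalDegree_sub _ _).trans (max_le ?_ ((hX k).trans one_le_two))
    exact (totalDegree_add _ _).trans (max_le ((hX i).trans one_le_two) ((hX j).trans one_le_two))
  · refine (totalDegree_sub _ _).trans (max_le ((hX i).trans one_le_two) ?_)
    rw [totalDegree_C]
    exact Nat.zero_le _

/-- A finitely generated algebra over a prime field has a presentation by the relations `x y = z`,
`x + y = z`, `x = 1`, at least one of them. -/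
theorem exists_elementary_prime (k : Type) [Field k]
    (hfrac : ∀ r : k, ∃ b ∈ Subring.closure ({1} : Set k), b ≠ 0 ∧
      b * r ∈ Subring.closure ({1} : Set k))
    (B : Type) [CommRing B] [Algebra k B] [Algebra.FiniteType k B] :
    ∃ (σ κ : Type) (_ : Fintype σ) (_ : Fintype κ) (g : κ → MvPolynomial σ k),
      (∀ i, IsElem {1} (g i)) ∧ Nonempty κ ∧
      Nonempty ((MvPolynomial σ k ⧸ Ideal.span (Set.range g)) ≃ₐ[k] B) := by
  have h1K : (1 : k) ∈ ({1} : Set k) := rfl
  obtain ⟨n, p, hp⟩ := Algebra.FiniteType.iff_quotient_mvPolynomial''.1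
    (inferInstance : Algebra.FiniteType k B)
  obtain ⟨r, f, hf⟩ := (Submodule.fg_iff_exists_fin_generating_family.1
    (IsNoetherian.noetherian (RingHom.ker p)))
  have hker : RingHom.ker p = Ideal.span (Set.range f) := hf.symm
  choose b hb hb0 hgood using fun i => exists_good h1K hfrac (f i)
  let f' : Fin r → MvPolynomial (Fin n) k := fun i => C (b i) * f i
  have hspan : Ideal.span (Set.range f) = Ideal.span (Set.range f') := by
    apply le_antisymm
    · rw [Ideal.span_le]
      rintro _ ⟨i, rfl⟩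
      have h1 : f i = C (b i)⁻¹ * f' i := by
        change f i = C (b i)⁻¹ * (C (b i) * f i)
        rw [← mul_assoc, ← C_mul, inv_mul_cancel₀ (hb0 i), C_1, one_mul]
      rw [h1]
      exact Ideal.mul_mem_left _ _ (Ideal.subset_span ⟨i, rfl⟩)
    · rw [Ideal.span_le]
      rintro _ ⟨i, rfl⟩
      exact Ideal.mul_mem_left _ _ (Ideal.subset_span ⟨i, rfl⟩)
  have hpres := hasPres_list' (K := ({1} : Set k)) (List.ofFn f') (by
    intro q hq
    obtain ⟨i, rfl⟩ := List.mem_ofFn.1 hq
    exact hgood i)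
  obtain ⟨σ, κ, h1, h2, g, v, hg, hv, hT⟩ := hpres.zero
  have hne : Nonempty κ := by
    by_contra hem
    rw [not_nonempty_iff] at hem
    obtain ⟨i, hi⟩ := hT (Or.inl rfl)
    have h3 : (X i : MvPolynomial σ k) ∈ RingHom.ker (aeval v : MvPolynomial σ k →ₐ[k] _) := by
      rw [RingHom.mem_ker, aeval_X, hi]
    rw [hv.ker, Set.range_eq_empty, Ideal.span_empty, Ideal.mem_bot] at h3
    exact X_ne_zero i h3
  have hc : ∀ i, ∃ s, v s = f' i := fun i => hT (Or.inr (Or.inr (List.mem_ofFn.2 ⟨i, rfl⟩)))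
  choose c hc using hc
  have h3 := isPres_quotient hv f' c hc
  refine ⟨σ, κ ⊕ Fin r, h1, inferInstance, Sum.elim g fun i => X (c i) + X (c i) - X (c i), ?_,
    ⟨Sum.inl hne.some⟩, ⟨?_⟩⟩
  · rintro (i | i)
    · exact hg i
    · exact Or.inr (Or.inl ⟨c i, c i, c i, rfl⟩)
  · exact ((Ideal.quotientEquivAlgOfEq k h3.ker.symm).trans
      (Ideal.quotientKerAlgEquivOfSurjective h3.surj)).trans
      ((Ideal.quotientEquivAlgOfEq k (hker.trans hspan).symm).trans
        (Ideal.quotientKerAlgEquivOfSurjective hp))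

theorem frac_rat (r : ℚ) : ∃ b ∈ Subring.closure ({1} : Set ℚ), b ≠ 0 ∧
    b * r ∈ Subring.closure ({1} : Set ℚ) := by
  have h : ∀ m : ℤ, (m : ℚ) ∈ Subring.closure ({1} : Set ℚ) := fun m => intCast_mem _ m
  refine ⟨(r.den : ℚ), by exact_mod_cast h r.den, Nat.cast_ne_zero.2 r.den_nz, ?_⟩
  rw [Rat.den_mul_eq_num]
  exact h _

theorem frac_zmod (p : ℕ) [Fact p.Prime] (r : ZMod p) : ∃ b ∈ Subring.closure ({1} : Set (ZMod p)),
    b ≠ 0 ∧ b * r ∈ Subring.closure ({1} : Set (ZMod p)) := by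
  refine ⟨1, one_mem _, one_ne_zero, ?_⟩
  rw [one_mul, ← ZMod.intCast_zmod_cast r]
  exact intCast_mem _ _

namespace GradedCohomology

variable {K : Type} [Field K] {E : Type} [Field E] {Γ : Type} [Group Γ]
  {T : GradedCohomology K E Γ} {c : Γ → Eˣ} (hT : T.IsCohomology c)
  (hfrac : ∀ r : K, ∃ b ∈ Subring.closure ({1} : Set K), b ≠ 0 ∧
    b * r ∈ Subring.closure ({1} : Set K)) {δ : ℤ}
  (hJ : ∀ (σ κ : Type) [Fintype σ] [Fintype κ] (g : κ → MvPolynomial σ K),
    (∀ i, IsElem {1} (g i)) → ∀ n w : ℤ, n - w = δ + 1 →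
    (T.ofHyp (bigPoly g) n w).Semisimple)

include hT hfrac hJ

theorem ss_affine_elem (B : Type) [CommRing B] [Algebra K B] (hB : Algebra.FiniteType K B)
    (n w : ℤ) (hn : n - w = δ) :
    (T.H (Spec (.of B)) (Spec.map (CommRingCat.ofHom (algebraMap K B))) n w).Semisimple := by
  obtain ⟨σ, κ, _, _, g, hg, ⟨i⟩, ⟨e⟩⟩ := exists_elementary_prime K hfrac B
  have h1 := ss_open hT g (n + 1) w (hJ _ _ g hg _ _ (by linarith))
  have h2 := ss_closed hT g ⟨i, IsElem.ne_zero (hg i)⟩ n w h1
  refine ss_iso hT _ _ (Scheme.Spec.mapIso e.toRingEquiv.toCommRingCatIso.op) ?_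
    ((cls_sepFinType K).affine _ inferInstance) ((cls_sepFinType K).affine _ inferInstance) n w h2
  change Spec.map (CommRingCat.ofHom e.toRingEquiv.toRingHom) ≫ _ = _
  rw [← Spec.map_comp, ← CommRingCat.ofHom_comp]
  congr 2
  exact e.toAlgHom.comp_algebraMap

theorem ss_affine_elem' (X : Scheme.{0}) [IsAffine X] (f : X ⟶ Spec (.of K))
    (hf : SepFinType K X f) (n w : ℤ) (hn : n - w = δ) : (T.H X f n w).Semisimple := by
  have hft := hf.1
  obtain ⟨φ, hφ⟩ := Spec.map_surjective (X.isoSpec.inv ≫ f)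
  have hft2 : LocallyOfFiniteType (Spec.map φ) := by
    rw [hφ]
    infer_instance
  have hφ2 : φ.hom.FiniteType := HasRingHomProperty.Spec_iff.mp hft2
  algebraize [φ.hom]
  have h1 := ss_affine_elem hT hfrac hJ Γ(X, ⊤) ‹_› n w hn
  have hC := (cls_sepFinType K).affine Γ(X, ⊤) ‹_›
  refine ss_iso hT f _ X.isoSpec ?_ hf hC n w h1
  have h3 : Spec.map (CommRingCat.ofHom (algebraMap K Γ(X, ⊤))) = X.isoSpec.inv ≫ f := hφ
  rw [h3, Iso.hom_inv_id_assoc]

theorem ss_torsor_elem {S : SchProp K} (hS : HasTorsors S) (X : Scheme.{0})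
    (f : X ⟶ Spec (.of K)) (hX : S X f) (n w : ℤ) (hn : n - w = δ) :
    (T.H X f n w).Semisimple := by
  obtain ⟨h1, r, E', π, hE, hE', hπ⟩ := hS X f hX
  rw [ss_bundle hT π f h1 hE' hπ]
  exact ss_affine_elem' hT hfrac hJ E' _ hE' _ _ (by linarith)

end GradedCohomology

end Pool.Agent.R908.SS
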