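import Pool.Agent.R908.SS.Elem

/-!
# Number fields and elementary hypersurfaces over `ℚ`
-/

set_option autoImplicit false
set_option linter.all false

open AlgebraicGeometry CategoryTheory CategoryTheory.Limits MvPolynomial Pool.Agent.R904.CU
  Pool.Agent.R904.EL

namespace Pool.Agent.R908.SS

/-- `g` is a finite family of polynomials of the forms `xᵢ xⱼ - xₖ`, `xᵢ + xⱼ - xₖ`, `xᵢ - 1`. -/
def IsElementary {k : Type} [Field k] {σ κ : Type} (g : κ → MvPolynomial σ k) : Prop :=
  ∀ i, IsElem {1} (g i)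

/-- The hypersurface `∑ yₖ gₖ(x) = 1` of such a family is smooth of degree at most three. -/
theorem IsElementary.isSmoothCubic {k : Type} [Field k] {σ κ : Type} [Fintype κ]
    {g : κ → MvPolynomial σ k} (hg : IsElementary g) : IsSmoothCubic (bigPoly g) :=
  isSmoothCubic_bigPoly g fun i => IsElem.totalDegree_le (hg i)

variable {E : Type} [Field E] {T : CohomologyOverFields E} {c : Gal ℚ → Eˣ}
  {S : ∀ (k : Type) [Field k], SchProp k}

theorem number_fields_elementary (hT : (T ℚ).IsCohomology c) (hS : HasTorsors (S ℚ))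
    (hW : (T ℚ).HasWeights (S ℚ)) (hR : Restriction T S) :
    (∀ (L : Type) [Field L] [NumberField L] (X : Scheme.{0}) (f : X ⟶ Spec (.of L)), S L X f →
      ∀ n : ℤ, ((T L).H X f n n).Semisimple) ↔
    ∀ (σ κ : Type) [Fintype σ] [Fintype κ] (g : κ → MvPolynomial σ ℚ), IsElementary g →
      ∀ n : ℤ, ((T ℚ).ofHyp (bigPoly g) n (n - 1)).Semisimple := by
  constructor
  · intro h σ κ _ _ g _ n
    obtain ⟨Y, f, hY, hs⟩ := hW _ (hyp (bigPoly g)) ((cls_sepFinType ℚ).affine _ inferInstance) n
      (n - 1)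
    exact (h ℚ Y f hY (n - 1)).subquotient hs
  · intro h L _ _ X f hX n
    obtain ⟨h1, h2⟩ := hR L X f hX
    obtain ⟨φ, hφ⟩ := h2 n
    refine Rep.Semisimple.ofInduced hφ ?_
    refine GradedCohomology.ss_torsor_elem hT frac_rat (δ := 0) (fun σ κ _ _ g hg n w hn => ?_) hS
      X (res ℚ f) h1 n n (sub_self n)
    have hw : w = n - 1 := by linarith
    subst hw
    exact h σ κ g hg n

end Pool.Agent.R908.SS
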