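import Pool.Agent.R908.SS.ElemFields
import Pool.Agent.R908.SS.Complete

/-!
# Finite fields and elementary hypersurfaces over `𝔽_p`
-/

set_option autoImplicit false
set_option linter.all false

open AlgebraicGeometry CategoryTheory CategoryTheory.Limits MvPolynomial Pool.Agent.R904.CU
  Pool.Agent.R904.EL

namespace Pool.Agent.R908.SS

namespace FrobCohomology

variable {k : Type} [Field k] {E : Type} [Field E] {T : FrobCohomology k E}

section

variable [CharZero E] [IsAlgClosed E] {q : ℕ} (hq : 2 ≤ q) (hT : T.IsCohomology q)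
  (hfrac : ∀ r : k, ∃ b ∈ Subring.closure ({1} : Set k), b ≠ 0 ∧
    b * r ∈ Subring.closure ({1} : Set k)) {δ : ℤ}
  (hJ : ∀ (σ κ : Type) [Fintype σ] [Fintype κ] (g : κ → MvPolynomial σ k),
    IsElementary g → ∀ n w : ℤ, n - w = δ + 1 → (T.ofHyp (bigPoly g) n).NoBlocks q w)

include hq hT hfrac hJ

theorem nb_affine_elem (B : Type) [CommRing B] [Algebra k B] (hB : Algebra.FiniteType k B)
    (n w : ℤ) (hn : n - w = δ) :
    (T.H (Spec (.of B)) (Spec.map (CommRingCat.ofHom (algebraMap k B))) n).NoBlocks q w := by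
  obtain ⟨σ, κ, _, _, g, hg, ⟨i⟩, ⟨e⟩⟩ := exists_elementary_prime k hfrac B
  have h1 := nb_open hq hT g (n + 1) w (hJ _ _ g hg _ _ (by linarith))
  have h2 := nb_closed hq hT g ⟨i, IsElem.ne_zero (hg i)⟩ n w h1
  refine nb_iso hq hT _ _ (Scheme.Spec.mapIso e.toRingEquiv.toCommRingCatIso.op) ?_
    ((cls_sepFinType k).affine _ inferInstance) ((cls_sepFinType k).affine _ inferInstance) n w h2
  change Spec.map (CommRingCat.ofHom e.toRingEquiv.toRingHom) ≫ _ = _
  rw [← Spec.map_comp, ← CommRingCat.ofHom_comp]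
  congr 2
  exact e.toAlgHom.comp_algebraMap

theorem nb_affine_elem' (X : Scheme.{0}) [IsAffine X] (f : X ⟶ Spec (.of k))
    (hf : SepFinType k X f) (n w : ℤ) (hn : n - w = δ) : (T.H X f n).NoBlocks q w := by
  have hft := hf.1
  obtain ⟨φ, hφ⟩ := Spec.map_surjective (X.isoSpec.inv ≫ f)
  have hft2 : LocallyOfFiniteType (Spec.map φ) := by
    rw [hφ]
    infer_instance
  have hφ2 : φ.hom.FiniteType := HasRingHomProperty.Spec_iff.mp hft2
  algebraize [φ.hom]
  have h1 := nb_affine_elem hq hT hfrac hJ Γ(X, ⊤) ‹_› n w hn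
  have hC := (cls_sepFinType k).affine Γ(X, ⊤) ‹_›
  refine nb_iso hq hT f _ X.isoSpec ?_ hf hC n w h1
  have h3 : Spec.map (CommRingCat.ofHom (algebraMap k Γ(X, ⊤))) = X.isoSpec.inv ≫ f := hφ
  rw [h3, Iso.hom_inv_id_assoc]

theorem nb_torsor_elem {S : SchProp k} (hS : HasTorsors S) (X : Scheme.{0})
    (f : X ⟶ Spec (.of k)) (hX : S X f) (n w : ℤ) (hn : n - w = δ) :
    (T.H X f n).NoBlocks q w := by
  obtain ⟨h1, r, E', π, hE, hE', hπ⟩ := hS X f hX
  exact nb_untwist hq hT π f h1 hE' hπ n w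
    (nb_affine_elem' hq hT hfrac hJ E' _ hE' _ _ (by linarith))

end

end FrobCohomology

section

variable {E : Type} [Field E] [CharZero E] [IsAlgClosed E] {T : FrobOverFields E}
  {S : ∀ (k : Type) [Field k], SchProp k} (hT : FrobTheory T S) (p : ℕ) [Fact p.Prime]

include hT

theorem ss_of_elementary
    (h : ∀ (σ κ : Type) [Fintype σ] [Fintype κ] (g : κ → MvPolynomial σ (ZMod p)),
      IsElementary g → ∀ n : ℤ, ((T (ZMod p)).ofHyp (bigPoly g) n).NoBlocks p (n - 1))
    (k : Type) [Field k] [Finite k] [Algebra (ZMod p) k] (X : Scheme.{0}) (f : X ⟶ Spec (.of k))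
    (hX : S k X f) (n : ℤ) : ((T k).H X f n).Semisimple := by
  obtain ⟨h1, h2⟩ := hT.restriction (ZMod p) k X f hX
  refine FrobModule.Semisimple.sub ?_ (h2 n)
  refine FrobModule.NoBlocks.semisimple ?_ (hT.pure (ZMod p) X (res (ZMod p) f) h1 n)
  refine FrobCohomology.nb_torsor_elem (card_ge (ZMod p)) (hT.cohomology (ZMod p)) (frac_zmod p)
    (δ := 0) (fun σ κ _ _ g hg n w hn => ?_) (hT.torsors (ZMod p)) X (res (ZMod p) f) h1 n n
    (sub_self n)
  have h3 : w = n - 1 := by linarith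
  subst h3
  rw [Nat.card_zmod]
  exact h σ κ g hg n

theorem frob_tfae_elem :
    [∀ (k : Type) [Field k] [Finite k] [Algebra (ZMod p) k] (X : Scheme.{0})
       (f : X ⟶ Spec (.of k)), S k X f → ∀ n : ℤ, ((T k).H X f n).Semisimple,
     ∀ (k : Type) [Field k] [Finite k] [Algebra (ZMod p) k] (σ : Type) [Fintype σ] (d : ℕ),
       Fintype.card σ = d + 1 → ∀ F : MvPolynomial σ k, IsSmoothCubic F →
       ((T k).ofHyp F d).NoBlocks (Nat.card k) (d - 1),
     ∀ (σ κ : Type) [Fintype σ] [Fintype κ] (g : κ → MvPolynomial σ (ZMod p)),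
       IsElementary g → ∀ n : ℤ, ((T (ZMod p)).ofHyp (bigPoly g) n).NoBlocks p (n - 1)].TFAE := by
  have key := frob_tfae hT (k₀ := ZMod p) (C := fun k _ => S k) (fun _ _ _ _ _ h => h)
    (fun k _ _ X f h => (hT.torsors k X f h).1)
  have h1 := key.out 0 3
  have h2 := key.out 0 4
  tfae_have 1 ↔ 2 := h1
  tfae_have 1 → 3 := by
    intro h σ κ _ _ g hg n
    have h3 := h2.1 h (κ ⊕ σ) (bigPoly g) hg.isSmoothCubic n
    rwa [Nat.card_zmod] at h3
  tfae_have 3 → 1 := fun h k _ _ _ X f hX n => ss_of_elementary hT p h k X f hX n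
  tfae_finish

theorem complete_tfae_elem {C : ∀ (k : Type) [Field k], SchProp k}
    (hX : ∀ (k : Type) [Field k] [Finite k], (T k).LongExact) (hC : IsCompleteClass S C)
    (M : Compactifications S) :
    [∀ (k : Type) [Field k] [Finite k] [Algebra (ZMod p) k] (X : Scheme.{0})
       (f : X ⟶ Spec (.of k)), C k X f → ∀ n : ℤ, ((T k).H X f n).Semisimple,
     ∀ (k : Type) [Field k] [Finite k] [Algebra (ZMod p) k] (σ : Type) [Fintype σ] (d : ℕ),
       Fintype.card σ = d + 1 → ∀ F : MvPolynomial σ k, IsSmoothCubic F →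
       ∀ (D : Scheme.{0}) (i : D ⟶ M.P k σ), M.IsBoundary F i →
       ((T k).H D (i ≫ M.p k σ) d).NoBlocks (Nat.card k) (d - 1),
     ∀ (σ κ : Type) [Fintype σ] [Fintype κ] (g : κ → MvPolynomial σ (ZMod p)),
       IsElementary g → ∀ (D : Scheme.{0}) (i : D ⟶ M.P (ZMod p) (κ ⊕ σ)),
       M.IsBoundary (bigPoly g) i → ∀ n : ℤ,
       ((T (ZMod p)).H D (i ≫ M.p (ZMod p) (κ ⊕ σ)) n).NoBlocks p (n - 1)].TFAE := by
  have key := complete_tfae hT hX hC M (k₀ := ZMod p)
  have key2 := frob_tfae hT (k₀ := ZMod p) (C := C) hC.mem hC.finType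
  have h1 := key.out 0 1
  have h2 := key.out 0 2
  tfae_have 1 ↔ 2 := h1
  tfae_have 1 → 3 := by
    intro h σ κ _ _ g hg D i hi n
    have h3 := h2.1 h (κ ⊕ σ) (bigPoly g) hg.isSmoothCubic D i hi n
    rwa [Nat.card_zmod] at h3
  tfae_have 3 → 1 := by
    intro h
    refine (key2.out 0 1).1 ?_
    intro k _ _ _ X f hX' n
    refine ss_of_elementary hT p ?_ k X f hX' n
    intro σ κ _ _ g hg n
    have h4 := nb_of_boundary M (card_ge (ZMod p)) (hT.cohomology (ZMod p)) (hX (ZMod p))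
      (hT.pure (ZMod p)) (hT.torsors (ZMod p)) (F := bigPoly g) hg.isSmoothCubic (n := n)
      (fun D i hi => by
        rw [Nat.card_zmod]
        exact h σ κ g hg D i hi n)
    rwa [Nat.card_zmod] at h4
  tfae_finish

end

end Pool.Agent.R908.SS
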