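import Pool.Agent.R908.SS.FrobTheory

/-!
# Semisimplicity of Frobenius and smooth affine cubic hypersurfaces
-/

set_option autoImplicit false
set_option linter.all false

open AlgebraicGeometry CategoryTheory CategoryTheory.Limits MvPolynomial Pool.Agent.R904.CU
  Pool.Agent.R905.WM

namespace Pool.Agent.R908.SS

/-- For a separated scheme `X` of finite type over `k` and an integer `n`: the space `H X f n`, to be
thought of as the `ℓ`-adic cohomology with compact supports `H^n_c(X)` over an algebraic closure of `k`,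
with the geometric Frobenius `F` of `k`. -/
structure FrobCohomology (k : Type) [Field k] (E : Type) [Field E] where
  H : ∀ X : Scheme.{0}, (X ⟶ Spec (.of k)) → ℤ → FrobModule E

namespace FrobCohomology

variable {k : Type} [Field k] {E : Type} [Field E] (T : FrobCohomology k E)

/-- the cohomology of the affine hypersurface `F = 0` -/
noncomputable def ofHyp {σ : Type} (F : MvPolynomial σ k) (n : ℤ) : FrobModule E :=
  T.H _ (hyp F) n

/-- for a closed subscheme `Z` of `X` and its complement `U`: the exact sequences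
`H^n_c(X) → H^n_c(Z) → H^{n+1}_c(U)` -/
def Localization : Prop :=
  ∀ (X Z U : Scheme.{0}) (f : X ⟶ Spec (.of k)) (i : Z ⟶ X) (j : U ⟶ X), SepFinType k X f →
    IsClosedImmersion i → IsOpenImmersion j → Set.range i = (Set.range j)ᶜ → ∀ n : ℤ,
    FrobModule.ExactAt (T.H X f n) (T.H Z (i ≫ f) n) (T.H U (j ≫ f) (n + 1))

/-- `H^{n+2r}_c(E') = H^n_c(X)(-r)` for an affine bundle `E' → X` of rank `r`; `q` is the number of
elements of `k` -/
def Bundle (q : ℕ) : Prop :=
  ∀ (r : ℕ) (E' X : Scheme.{0}) (π : E' ⟶ X) (f : X ⟶ Spec (.of k)), SepFinType k X f →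
    SepFinType k E' (π ≫ f) → IsAffineBundle r π → ∀ n m : ℤ, m = n + 2 * r →
    FrobModule.IsTwist ((q : E) ^ r) (T.H X f n) (T.H E' (π ≫ f) m)

/-- The formal properties of the cohomology with compact supports. -/
structure IsCohomology (q : ℕ) : Prop where
  point : ∀ n : ℤ, n ≠ 0 → Subsingleton (T.H (Spec (.of k)) (𝟙 _) n).V
  vanish : ∀ X f, SepFinType k X f → ∀ d : ℕ, topologicalKrullDim X < d →
    ∀ n : ℤ, n < 0 ∨ 2 * (d - 1) < n → Subsingleton (T.H X f n).V
  localization : T.Localization
  bundle : T.Bundle q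

/-- Deligne's theorem: `H^n(X)` is pure of weight `n` for the members `X` of `S`. -/
def Pure [CharZero E] (S : SchProp k) (q : ℕ) : Prop :=
  ∀ X f, S X f → ∀ n : ℤ, (T.H X f n).IsPure q n

/-- The weight filtration: every `H^n_c(X)` has a filtration the graded piece `gr^W_w` of which is a
subquotient of `H^w(Y)` for some member `Y` of `S`. -/
def HasWeights (S : SchProp k) : Prop :=
  ∀ X f, SepFinType k X f → ∀ n : ℤ, FrobModule.Filtered
    (fun w G => ∃ Y g, S Y g ∧ FrobModule.IsSubquotient G (T.H Y g w)) (T.H X f n)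

/-- Artin vanishing for the smooth affine cubic hypersurfaces `J` of dimension `d`: `H^n_c(J) = 0` for
`n < d` -/
def Artin : Prop :=
  ∀ (σ : Type) [Fintype σ] (d : ℕ), Fintype.card σ = d + 1 → ∀ F : MvPolynomial σ k,
    IsSmoothCubic F → ∀ n : ℤ, n < d → Subsingleton (T.ofHyp F n).V

variable {T}

section

variable [CharZero E] {q : ℕ} (hq : 2 ≤ q) (hT : T.IsCohomology q)

include hq hT

theorem nb_untwist {r : ℕ} {E' X : Scheme.{0}} (π : E' ⟶ X) (f : X ⟶ Spec (.of k))
    (hX : SepFinType k X f) (hE : SepFinType k E' (π ≫ f)) (hπ : IsAffineBundle r π) (n w : ℤ)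
    (h : (T.H E' (π ≫ f) (n + 2 * r)).NoBlocks q (w + 2 * r)) : (T.H X f n).NoBlocks q w :=
  h.untwist hq (hT.bundle r E' X π f hX hE hπ n _ rfl) rfl

theorem nb_iso [IsAlgClosed E] {X Y : Scheme.{0}} (f : X ⟶ Spec (.of k)) (g : Y ⟶ Spec (.of k))
    (e : X ≅ Y) (he : e.hom ≫ g = f) (hX : SepFinType k X f) (hY : SepFinType k Y g) (n w : ℤ)
    (h : (T.H Y g n).NoBlocks q w) : (T.H X f n).NoBlocks q w := by
  subst he
  have h1 := hT.bundle 0 X Y e.hom g hY hX (isAffineBundle_of_isIso e.hom) n n (by simp)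
  exact h.twist hq h1 (by simp)

omit hq in
theorem subsingleton_space {σ : Type} [Fintype σ] (n : ℤ) (hn : n ≠ 2 * Fintype.card σ) :
    Subsingleton (T.H (Spec (.of (MvPolynomial σ k)))
      (Spec.map (CommRingCat.ofHom (algebraMap k (MvPolynomial σ k)))) n).V := by
  have hK : SepFinType k (Spec (.of k)) (𝟙 _) :=
    ⟨inferInstance, inferInstance, inferInstance⟩
  have hA : SepFinType k (Spec (.of (MvPolynomial σ k)))
      (Spec.map (CommRingCat.ofHom (algebraMap k (MvPolynomial σ k)))) :=
    (cls_sepFinType k).affine _ inferInstance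
  have h1 := hT.bundle (Fintype.card σ) _ _
    (Spec.map (CommRingCat.ofHom (algebraMap k (MvPolynomial σ k)))) (𝟙 _) hK
    (by rwa [Category.comp_id]) isAffineBundle_space (n - 2 * Fintype.card σ) n (by ring)
  rw [Category.comp_id] at h1
  obtain ⟨e, he, -⟩ := h1
  have := hT.point (n - 2 * Fintype.card σ) (by
    intro h
    exact hn (by linarith))
  exact (Equiv.ofBijective e he).symm.subsingleton

/-- the complement of the zeros of quadratic polynomials -/
theorem nb_open [IsAlgClosed E] {σ κ : Type} [Fintype σ] [Fintype κ] (g : κ → MvPolynomial σ k)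
    (n w : ℤ) (h : (T.ofHyp (bigPoly g) (n + 2 * (Fintype.card κ - 1 : ℕ))).NoBlocks q
      (w + 2 * (Fintype.card κ - 1 : ℕ))) :
    (T.H (openU g) ((openU g).ι ≫
      Spec.map (CommRingCat.ofHom (algebraMap k (MvPolynomial σ k)))) n).NoBlocks q w := by
  have hA : SepFinType k (Spec (.of (MvPolynomial σ k)))
    (Spec.map (CommRingCat.ofHom (algebraMap k (MvPolynomial σ k)))) :=
    (cls_sepFinType k).affine _ inferInstance
  have hU := (cls_sepFinType k).opn _ _ _ (openU g).ι inferInstance hA
  have hcomm : proj g ≫ (openU g).ι ≫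
      Spec.map (CommRingCat.ofHom (algebraMap k (MvPolynomial σ k))) =
      Spec.map (CommRingCat.ofHom (algebraMap k (Ring1 g))) := by
    rw [← Category.assoc, proj_ι]
    unfold proj0
    rw [← Spec.map_comp, ← CommRingCat.ofHom_comp]
  have hR : SepFinType k (Spec (.of (Ring1 g)))
      (Spec.map (CommRingCat.ofHom (algebraMap k (Ring1 g)))) :=
    (cls_sepFinType k).affine _ inferInstance
  have hE : SepFinType k (Spec (.of (Ring1 g))) (proj g ≫ (openU g).ι ≫
      Spec.map (CommRingCat.ofHom (algebraMap k (MvPolynomial σ k)))) := by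
    rw [hcomm]
    exact hR
  apply nb_untwist hq hT (proj g) _ hU hE (isAffineBundle_proj g)
  rw [hcomm]
  let e : (MvPolynomial (κ ⊕ σ) k ⧸ Ideal.span {bigPoly g}) ≃ₐ[k] Ring1 g :=
    Ideal.quotientEquivAlg _ _ (sumAlgEquiv k κ σ) (by
      rw [Ideal.map_span, Set.image_singleton]
      congr 2
      exact (sumAlgEquiv_bigPoly g).symm)
  refine nb_iso hq hT _ (hyp (bigPoly g))
    (Scheme.Spec.mapIso e.toRingEquiv.toCommRingCatIso.op) ?_ hR
    ((cls_sepFinType k).affine _ inferInstance) _ _ h
  change Spec.map (CommRingCat.ofHom e.toRingEquiv.toRingHom) ≫ hyp (bigPoly g) = _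
  unfold hyp
  rw [← Spec.map_comp, ← CommRingCat.ofHom_comp]
  congr 2
  exact e.toAlgHom.comp_algebraMap

/-- the zeros of quadratic polynomials, not all of them zero -/
theorem nb_closed {σ κ : Type} [Fintype σ] [Fintype κ] (g : κ → MvPolynomial σ k)
    (hg : ∃ i, g i ≠ 0) (n w : ℤ)
    (h : (T.H (openU g) ((openU g).ι ≫
      Spec.map (CommRingCat.ofHom (algebraMap k (MvPolynomial σ k)))) (n + 1)).NoBlocks q w) :
    (T.H (Spec (.of (MvPolynomial σ k ⧸ Ideal.span (Set.range g))))
      (Spec.map (CommRingCat.ofHom (algebraMap k (MvPolynomial σ k ⧸ Ideal.span (Set.range g)))))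
      n).NoBlocks q w := by
  have hA : SepFinType k (Spec (.of (MvPolynomial σ k)))
    (Spec.map (CommRingCat.ofHom (algebraMap k (MvPolynomial σ k)))) :=
    (cls_sepFinType k).affine _ inferInstance
  have hZ : SepFinType k (Spec (.of (MvPolynomial σ k ⧸ Ideal.span (Set.range g))))
      (Spec.map (CommRingCat.ofHom (algebraMap k
        (MvPolynomial σ k ⧸ Ideal.span (Set.range g))))) :=
    (cls_sepFinType k).affine _ inferInstance
  have h5 : closedZ g ≫ Spec.map (CommRingCat.ofHom (algebraMap k (MvPolynomial σ k))) =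
      Spec.map (CommRingCat.ofHom (algebraMap k
        (MvPolynomial σ k ⧸ Ideal.span (Set.range g)))) := by
    unfold closedZ
    rw [← Spec.map_comp, ← CommRingCat.ofHom_comp]
  by_cases hn : n = 2 * Fintype.card σ
  · obtain ⟨i, hi⟩ := hg
    have hd := dim_quotient_lt (Ideal.span (Set.range g)) ⟨g i, Ideal.subset_span ⟨i, rfl⟩, hi⟩
    exact FrobModule.NoBlocks.of_subsingleton (hT.vanish _ _ hZ _ hd n (Or.inr (by linarith)))
  · obtain ⟨a, b, ha, hb, hab⟩ := hT.localization _ _ _ _ (closedZ g) (openU g).ι hA inferInstance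
      inferInstance (range_closedZ g) n
    have hs := subsingleton_space hT n hn
    have hinj : Function.Injective b := by
      rw [injective_iff_map_eq_zero]
      intro x hx
      obtain ⟨y, rfl⟩ := (hab x).1 hx
      have : y = 0 := Subsingleton.elim _ _
      rw [this, map_zero]
    have h6 := h.of_equivariant hinj hb
    rwa [h5] at h6

variable [IsAlgClosed E] {δ : ℤ} (hJ : ∀ (σ : Type) [Fintype σ] (F : MvPolynomial σ k),
  IsSmoothCubic F → ∀ n w : ℤ, n - w = δ + 1 → (T.ofHyp F n).NoBlocks q w)

include hJ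

theorem nb_affine (B : Type) [CommRing B] [Algebra k B] (hB : Algebra.FiniteType k B) (n w : ℤ)
    (hn : n - w = δ) :
    (T.H (Spec (.of B)) (Spec.map (CommRingCat.ofHom (algebraMap k B))) n).NoBlocks q w := by
  obtain ⟨σ, κ, _, _, g, hg, hg0, ⟨e⟩⟩ := exists_quadratic_ne_zero k B
  have h1 := nb_open hq hT g (n + 1) w (hJ _ _ (isSmoothCubic_bigPoly g hg) _ _ (by linarith))
  have h2 := nb_closed hq hT g hg0 n w h1
  refine nb_iso hq hT _ _ (Scheme.Spec.mapIso e.toRingEquiv.toCommRingCatIso.op) ?_
    ((cls_sepFinType k).affine _ inferInstance) ((cls_sepFinType k).affine _ inferInstance) n w h2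
  change Spec.map (CommRingCat.ofHom e.toRingEquiv.toRingHom) ≫ _ = _
  rw [← Spec.map_comp, ← CommRingCat.ofHom_comp]
  congr 2
  exact e.toAlgHom.comp_algebraMap

theorem nb_affine' (X : Scheme.{0}) [IsAffine X] (f : X ⟶ Spec (.of k)) (hf : SepFinType k X f)
    (n w : ℤ) (hn : n - w = δ) : (T.H X f n).NoBlocks q w := by
  have hft := hf.1
  obtain ⟨φ, hφ⟩ := Spec.map_surjective (X.isoSpec.inv ≫ f)
  have hft2 : LocallyOfFiniteType (Spec.map φ) := by
    rw [hφ]
    infer_instance
  have hφ2 : φ.hom.FiniteType := HasRingHomProperty.Spec_iff.mp hft2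
  algebraize [φ.hom]
  have h1 := nb_affine hq hT hJ Γ(X, ⊤) ‹_› n w hn
  have hC := (cls_sepFinType k).affine Γ(X, ⊤) ‹_›
  refine nb_iso hq hT f _ X.isoSpec ?_ hf hC n w h1
  have h3 : Spec.map (CommRingCat.ofHom (algebraMap k Γ(X, ⊤))) = X.isoSpec.inv ≫ f := hφ
  rw [h3, Iso.hom_inv_id_assoc]

theorem nb_torsor {S : SchProp k} (hS : HasTorsors S) (X : Scheme.{0}) (f : X ⟶ Spec (.of k))
    (hX : S X f) (n w : ℤ) (hn : n - w = δ) : (T.H X f n).NoBlocks q w := by
  obtain ⟨h1, r, E', π, hE, hE', hπ⟩ := hS X f hX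
  exact nb_untwist hq hT π f h1 hE' hπ n w (nb_affine' hq hT hJ E' _ hE' _ _ (by linarith))

end

/-- from smooth projective schemes to all schemes -/
theorem ss_all [CharZero E] [IsAlgClosed E] {q : ℕ} (hq : 2 ≤ q) {S : SchProp k}
    (hP : T.Pure S q) (hW : T.HasWeights S) (h : ∀ X f, S X f → ∀ n : ℤ, (T.H X f n).Semisimple)
    (X : Scheme.{0}) (f : X ⟶ Spec (.of k)) (hX : SepFinType k X f) (n : ℤ) :
    (T.H X f n).Semisimple := by
  obtain ⟨W, G, a, b, hab, h0, hb, hw⟩ := hW X f hX n
  refine FrobModule.Semisimple.of_filtered hq ⟨W, G, a, b, hab, h0, hb, fun w h1 h2 => ?_⟩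
  obtain ⟨he, Y, g, hY, hs⟩ := hw w h1 h2
  exact ⟨he, (h Y g hY w).subquotient hs, (hP Y g hY w).subquotient hs⟩

end FrobCohomology

/-! ### all finite fields -/

/-- the cohomology with compact supports over all finite fields -/
abbrev FrobOverFields (E : Type) [Field E] : Type 1 :=
  ∀ (k : Type) [Field k] [Finite k], FrobCohomology k E

/-- The weak Lefschetz theorem for the smooth affine cubic hypersurfaces `J` of dimension `d` over
finite fields `k`: for `n > d ≥ 1` there are a finite extension `L` of `k` and a smooth affine cubic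
hypersurface `J'` of dimension `d - 1` over `L` (a general hyperplane section) with a surjection
`H^{n-2}_c(J')(-1) → H^n_c(J)`. -/
def FrobWeakLefschetz {E : Type} [Field E] (T : FrobOverFields E) : Prop :=
  ∀ (k : Type) [Field k] [Finite k] (σ : Type) [Fintype σ] (d : ℕ), Fintype.card σ = d + 1 →
    0 < d → ∀ F : MvPolynomial σ k, IsSmoothCubic F → ∀ n : ℤ, d < n →
    ∃ (L : Type) (_ : Field L) (_ : Finite L) (_ : Algebra k L) (τ : Type) (_ : Fintype τ)
      (G : MvPolynomial τ L), Fintype.card τ = d ∧ IsSmoothCubic G ∧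
      FrobModule.IsQuotient (Nat.card L : E) (Module.finrank k L) ((T L).ofHyp G (n - 2))
        ((T k).ofHyp F n)

/-- If `X` is a member of `S` over the finite field `L`, then also over the subfield `k`; the
cohomology of `X` over `L` is contained in the one of `X` over `k`, and the Frobenius of `L` is a
power of the one of `k`. -/
def FrobRestriction {E : Type} [Field E] (T : FrobOverFields E)
    (S : ∀ (k : Type) [Field k], SchProp k) : Prop :=
  ∀ (k : Type) [Field k] [Finite k] (L : Type) [Field L] [Finite L] [Algebra k L] (X : Scheme.{0})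
    (f : X ⟶ Spec (.of L)), S L X f → S k X (res k f) ∧
      ∀ n : ℤ, FrobModule.IsSub (Module.finrank k L) ((T L).H X f n) ((T k).H X (res k f) n)

/-- All the properties of the cohomology over finite fields. -/
structure FrobTheory {E : Type} [Field E] [CharZero E] (T : FrobOverFields E)
    (S : ∀ (k : Type) [Field k], SchProp k) : Prop where
  cohomology : ∀ (k : Type) [Field k] [Finite k], (T k).IsCohomology (Nat.card k)
  artin : ∀ (k : Type) [Field k] [Finite k], (T k).Artin
  pure : ∀ (k : Type) [Field k] [Finite k], (T k).Pure (S k) (Nat.card k)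
  weights : ∀ (k : Type) [Field k] [Finite k], (T k).HasWeights (S k)
  torsors : ∀ (k : Type) [Field k] [Finite k], HasTorsors (S k)
  lefschetz : FrobWeakLefschetz T
  restriction : FrobRestriction T S

section

variable {E : Type} [Field E] [CharZero E] [IsAlgClosed E] {T : FrobOverFields E}
  {S : ∀ (k : Type) [Field k], SchProp k} (hT : FrobTheory T S) {k₀ : Type} [Field k₀] [Finite k₀]

theorem card_ge (k : Type) [Field k] [Finite k] : 2 ≤ Nat.card k := Finite.one_lt_card

include hT

theorem nb_of_middle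
    (h4 : ∀ (k : Type) [Field k] [Finite k] [Algebra k₀ k] (σ : Type) [Fintype σ] (d : ℕ),
      Fintype.card σ = d + 1 → ∀ F : MvPolynomial σ k, IsSmoothCubic F →
      ((T k).ofHyp F d).NoBlocks (Nat.card k) (d - 1)) (N : ℕ) :
    ∀ (k : Type) [Field k] [Finite k] [Algebra k₀ k] (σ : Type) [Fintype σ],
      Fintype.card σ = N → ∀ F : MvPolynomial σ k, IsSmoothCubic F →
      ∀ n w : ℤ, n - w = 1 → ((T k).ofHyp F n).NoBlocks (Nat.card k) w := by
  induction N with
  | zero =>
    intro k _ _ _ σ _ hσ F hF n w hn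
    have hd := dim_quotient_lt (Ideal.span {F}) ⟨F, Ideal.subset_span rfl,
      GradedCohomology.ne_zero_of_isSmoothCubic hF⟩
    rw [hσ] at hd
    exact FrobModule.NoBlocks.of_subsingleton ((hT.cohomology k).vanish _ (hyp F)
      ((cls_sepFinType k).affine _ inferInstance) 0 hd n (by
        push_cast
        omega))
  | succ d ih =>
    intro k _ _ _ σ _ hσ F hF n w hn
    rcases lt_trichotomy n d with h | h | h
    · exact FrobModule.NoBlocks.of_subsingleton (hT.artin k σ d hσ F hF n h)
    · subst h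
      have hw : w = d - 1 := by linarith
      subst hw
      exact h4 k σ d hσ F hF
    · rcases Nat.eq_zero_or_pos d with h0 | h0
      · subst h0
        have hd := dim_quotient_lt (Ideal.span {F}) ⟨F, Ideal.subset_span rfl,
          GradedCohomology.ne_zero_of_isSmoothCubic hF⟩
        rw [hσ] at hd
        exact FrobModule.NoBlocks.of_subsingleton ((hT.cohomology k).vanish _ (hyp F)
          ((cls_sepFinType k).affine _ inferInstance) _ hd n (by
            push_cast at h ⊢
            omega))
      · obtain ⟨L, _, _, _, τ, _, G, hτ, hG, u, hu, he⟩ := hT.lefschetz k σ d hσ h0 F hF n h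
        letI : Algebra k₀ L := ((algebraMap k L).comp (algebraMap k₀ k)).toAlgebra
        have h1 := ih L τ hτ G hG (n - 2) (w - 2) (by linarith)
        have hfin : Module.Finite k L := Module.Finite.of_finite
        have ha : 0 < Module.finrank k L := Module.finrank_pos
        have hcard : Nat.card L = Nat.card k ^ Module.finrank k L :=
          Module.natCard_eq_pow_finrank
        have hL0 : (Nat.card L : E) ≠ 0 := Nat.cast_ne_zero.2 (by
          have := card_ge L
          omega)
        intro μ hμ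
        apply nb_pow ((T k).ofHyp F n).inj ha
        have h2 : IsWeil (Nat.card L) w (μ ^ Module.finrank k L) := by
          rw [hcard]
          exact isWeil_pow hμ _
        have h3 : IsWeil (Nat.card L) (w - 2) ((Nat.card L : E)⁻¹ * μ ^ Module.finrank k L) := by
          have h4 := isWeil_mul (card_ge L) (-1) h2
          rw [zpow_neg_one] at h4
          have h5 : w + 2 * (-1) = w - 2 := by ring
          rwa [h5] at h4
        have h4 := nb_smul' hL0 (h1 _ h3)
        rw [mul_inv_cancel_left₀ hL0] at h4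
        exact nb_quot hu (f := (Nat.card L : E) • ((T L).ofHyp G (n - 2)).F) he h4

/-- **Main theorem over finite fields.** -/
theorem frob_tfae {C : ∀ (k : Type) [Field k], SchProp k}
    (hSC : ∀ (k : Type) [Field k] [Finite k] X f, S k X f → C k X f)
    (hC : ∀ (k : Type) [Field k] [Finite k] X f, C k X f → SepFinType k X f) :
    [∀ (k : Type) [Field k] [Finite k] [Algebra k₀ k] X f, S k X f → ∀ n : ℤ,
       ((T k).H X f n).Semisimple,
     ∀ (k : Type) [Field k] [Finite k] [Algebra k₀ k] X f, C k X f → ∀ n : ℤ,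
       ((T k).H X f n).Semisimple,
     ∀ (k : Type) [Field k] [Finite k] [Algebra k₀ k] X f, SepFinType k X f → ∀ n : ℤ,
       ((T k).H X f n).Semisimple,
     ∀ (k : Type) [Field k] [Finite k] [Algebra k₀ k] (σ : Type) [Fintype σ] (d : ℕ),
       Fintype.card σ = d + 1 → ∀ F : MvPolynomial σ k, IsSmoothCubic F →
       ((T k).ofHyp F d).NoBlocks (Nat.card k) (d - 1),
     ∀ (σ : Type) [Fintype σ] (F : MvPolynomial σ k₀), IsSmoothCubic F → ∀ n : ℤ,
       ((T k₀).ofHyp F n).NoBlocks (Nat.card k₀) (n - 1)].TFAE := by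
  tfae_have 1 → 3 := fun h k _ _ _ X f hX n =>
    FrobCohomology.ss_all (card_ge k) (hT.pure k) (hT.weights k) (fun X f hX n => h k X f hX n)
      X f hX n
  tfae_have 3 → 2 := fun h k _ _ _ X f hX n => h k X f (hC k X f hX) n
  tfae_have 2 → 1 := fun h k _ _ _ X f hX n => h k X f (hSC k X f hX) n
  tfae_have 3 → 4 := fun h k _ _ _ σ _ d _ F _ =>
    (h k _ (hyp F) ((cls_sepFinType k).affine _ inferInstance) _).noBlocks
  tfae_have 4 → 5 := fun h σ _ F hF n =>
    nb_of_middle hT h _ k₀ σ rfl F hF n (n - 1) (by ring)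
  tfae_have 5 → 1 := by
    intro h k _ _ _ X f hX n
    obtain ⟨h1, h2⟩ := hT.restriction k₀ k X f hX
    refine FrobModule.Semisimple.sub ?_ (h2 n)
    refine FrobModule.NoBlocks.semisimple ?_ (hT.pure k₀ X (res k₀ f) h1 n)
    refine FrobCohomology.nb_torsor (card_ge k₀) (hT.cohomology k₀) (δ := 0)
      (fun σ _ F hF n w hn => ?_) (hT.torsors k₀) X (res k₀ f) h1 n n (sub_self n)
    have h3 : w = n - 1 := by linarith
    subst h3
    exact h σ F hF n
  tfae_finish

end

end Pool.Agent.R908.SS
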