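import Pool.Agent.R908.SS.Main

/-!
# The middle cohomology of smooth affine cubic hypersurfaces
-/

set_option autoImplicit false
set_option linter.all false

open AlgebraicGeometry CategoryTheory CategoryTheory.Limits MvPolynomial Pool.Agent.R904.CU

namespace Pool.Agent.R908.SS

namespace GradedCohomology

variable {K : Type} [Field K] {E : Type} [Field E] {Γ : Type} [Group Γ]
  (T : GradedCohomology K E Γ)

/-- Artin vanishing for the smooth affine cubic hypersurfaces `J = {F = 0}` of dimension `d`: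
`H^n_c(J) = 0` for `n < d` -/
def Artin : Prop :=
  ∀ (σ : Type) [Fintype σ] (d : ℕ), Fintype.card σ = d + 1 → ∀ F : MvPolynomial σ K,
    IsSmoothCubic F → ∀ n w : ℤ, n < d → Subsingleton (T.ofHyp F n w).V

/-- The weak Lefschetz theorem for the smooth affine cubic hypersurfaces `J = {F = 0}` of dimension `d`:
for `n > d ≥ 1` there is a smooth affine cubic hypersurface `J' = {G = 0}` of dimension `d - 1` (a
general hyperplane section) with a surjection `H^{n-2}_c(J')(-1) → H^n_c(J)`. -/
def WeakLefschetz (c : Γ → Eˣ) : Prop :=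
  ∀ (σ : Type) [Fintype σ] (d : ℕ), Fintype.card σ = d + 1 → 0 < d → ∀ F : MvPolynomial σ K,
    IsSmoothCubic F → ∀ n w : ℤ, d < n → ∃ (τ : Type) (_ : Fintype τ) (G : MvPolynomial τ K),
      Fintype.card τ = d ∧ IsSmoothCubic G ∧
      Rep.IsTwistedQuotient c (T.ofHyp G (n - 2) (w - 2)) (T.ofHyp F n w)

/-- Every graded piece `gr^W_w H^n_c(X)` is a subquotient of `H^w(Y)` for some member `Y` of `S`. -/
def HasWeights (S : SchProp K) : Prop :=
  ∀ X f, SepFinType K X f → ∀ n w, ∃ Y g, S Y g ∧ Rep.IsSubquotient (T.H X f n w) (T.H Y g w w)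

variable {T}

theorem ne_zero_of_isSmoothCubic {σ : Type} {F : MvPolynomial σ K} (hF : IsSmoothCubic F) :
    F ≠ 0 := by
  rintro rfl
  have h1 := hF.2
  have h2 : Ideal.span ({(0 : MvPolynomial σ K)} ∪ Set.range fun i => pderiv i 0) = ⊥ := by
    rw [Ideal.span_eq_bot]
    rintro x (rfl | ⟨i, rfl⟩)
    · rfl
    · exact map_zero _
  rw [h2] at h1
  exact bot_ne_top h1

theorem ss_of_middle {c : Γ → Eˣ} (hT : T.IsCohomology c) (hA : T.Artin)
    (hL : T.WeakLefschetz c)
    (h4 : ∀ (σ : Type) [Fintype σ] (d : ℕ), Fintype.card σ = d + 1 → ∀ F : MvPolynomial σ K,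
      IsSmoothCubic F → (T.ofHyp F d (d - 1)).Semisimple) (N : ℕ) :
    ∀ (σ : Type) [Fintype σ], Fintype.card σ = N → ∀ F : MvPolynomial σ K, IsSmoothCubic F →
      ∀ n w : ℤ, n - w = 1 → (T.ofHyp F n w).Semisimple := by
  induction N with
  | zero =>
    intro σ _ hσ F hF n w hn
    have hd := dim_quotient_lt (Ideal.span {F}) ⟨F, Ideal.subset_span rfl,
      ne_zero_of_isSmoothCubic hF⟩
    rw [hσ] at hd
    have := hT.vanish _ (hyp F) ((cls_sepFinType K).affine _ inferInstance) 0 hd n w (by
      push_cast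
      omega)
    exact Rep.Semisimple.of_subsingleton this
  | succ d ih =>
    intro σ _ hσ F hF n w hn
    rcases lt_trichotomy n d with h | h | h
    · exact Rep.Semisimple.of_subsingleton (hA σ d hσ F hF n w h)
    · subst h
      have hw : w = d - 1 := by linarith
      subst hw
      exact h4 σ d hσ F hF
    · rcases Nat.eq_zero_or_pos d with h0 | h0
      · subst h0
        have hd := dim_quotient_lt (Ideal.span {F}) ⟨F, Ideal.subset_span rfl,
          ne_zero_of_isSmoothCubic hF⟩
        rw [hσ] at hd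
        have := hT.vanish _ (hyp F) ((cls_sepFinType K).affine _ inferInstance) _ hd n w (by
          push_cast at h ⊢
          omega)
        exact Rep.Semisimple.of_subsingleton this
      · obtain ⟨τ, _, G, hτ, hG, hp⟩ := hL σ d hσ h0 F hF n w h
        exact (ih τ hτ G hG (n - 2) (w - 2) (by linarith)).twistedQuotient hp

/-- **Main theorem over one field.** -/
theorem tfae {c : Γ → Eˣ} (hT : T.IsCohomology c) (hA : T.Artin) (hL : T.WeakLefschetz c)
    {S : SchProp K}
    (hS : HasTorsors S) (hW : T.HasWeights S) :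
    [∀ X f, S X f → ∀ n : ℤ, (T.H X f n n).Semisimple,
     ∀ X f, SepFinType K X f → ∀ n w : ℤ, (T.H X f n w).Semisimple,
     ∀ (σ : Type) [Fintype σ] (d : ℕ), Fintype.card σ = d + 1 → ∀ F : MvPolynomial σ K,
       IsSmoothCubic F → (T.ofHyp F d (d - 1)).Semisimple].TFAE := by
  tfae_have 1 → 2 := by
    intro h X f hf n w
    obtain ⟨Y, g, hY, hs⟩ := hW X f hf n w
    exact (h Y g hY w).subquotient hs
  tfae_have 2 → 3 := fun h σ _ d _ F _ =>
    h _ (hyp F) ((cls_sepFinType K).affine _ inferInstance) _ _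
  tfae_have 3 → 1 := by
    intro h X f hX n
    refine ss_torsor hT (δ := 0) (fun σ _ F hF n w hn => ?_) hS X f hX n n (sub_self n)
    exact ss_of_middle hT hA hL h _ σ rfl F hF n w (by linarith)
  tfae_finish

end GradedCohomology

end Pool.Agent.R908.SS
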