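import Pool.Agent.R908.SS.Block
import Pool.Agent.R908.SS.Lefschetz
import Pool.Agent.R908.SS.Fields

/-!
# Cohomology with compact supports over finite fields
-/

set_option autoImplicit false
set_option linter.all false

open AlgebraicGeometry CategoryTheory CategoryTheory.Limits MvPolynomial Pool.Agent.R904.CU
  Pool.Agent.R905.WM

namespace Pool.Agent.R908.SS

/-- a finite-dimensional vector space `V` with an injective endomorphism `F` -/
structure FrobModule (E : Type) [Field E] where
  V : Type
  [grp : AddCommGroup V]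
  [mod : Module E V]
  [fin : Module.Finite E V]
  F : Module.End E V
  inj : Function.Injective F

attribute [instance] FrobModule.grp FrobModule.mod FrobModule.fin

namespace FrobModule

section defs

variable {E : Type} [Field E]

/-- `F` is diagonalisable. (`E` will be algebraically closed.) -/
def Semisimple (A : FrobModule E) : Prop := ⨆ μ, A.F.eigenspace μ = ⊤

/-- the linear maps -/
abbrev Lin (A B : FrobModule E) : Type := A.V →ₗ[E] B.V

/-- `u (c F) = F ^ a u` -/
def Intertwines (c : E) (a : ℕ) (A B : FrobModule E) (u : Lin A B) : Prop :=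
  ∀ x, u (c • A.F x) = (B.F ^ a) (u x)

/-- `u` commutes with `F`. -/
def Equivariant (A B : FrobModule E) (u : Lin A B) : Prop := ∀ x, u (A.F x) = B.F (u x)

/-- There is an exact sequence `A → B → C`. -/
def ExactAt (A B C : FrobModule E) : Prop :=
  ∃ (a : Lin A B) (b : Lin B C), Equivariant A B a ∧ Equivariant B C b ∧ Function.Exact a b

/-- `B` is isomorphic to `A` with the operator `c F` instead of `F`. -/
def IsTwist (c : E) (A B : FrobModule E) : Prop :=
  ∃ u : Lin A B, Function.Bijective u ∧ Intertwines c 1 A B u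

/-- `A` is isomorphic to a subobject of `B`, with the operator `F ^ a` on `B`. -/
def IsSub (a : ℕ) (A B : FrobModule E) : Prop :=
  ∃ u : Lin A B, Function.Injective u ∧ Intertwines 1 a A B u

/-- `B`, with the operator `F ^ a`, is a quotient of `A`, with the operator `c F`. -/
def IsQuotient (c : E) (a : ℕ) (A B : FrobModule E) : Prop :=
  ∃ u : Lin A B, Function.Surjective u ∧ Intertwines c a A B u

/-- `A` is a quotient of a subobject of `B`. -/
def IsSubquotient (A B : FrobModule E) : Prop :=
  ∃ C : FrobModule E, IsSub 1 C B ∧ IsQuotient 1 1 C A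

/-- `B` is an extension of `C` by `A`. -/
def IsExtension (A B C : FrobModule E) : Prop :=
  ∃ (a : Lin A B) (b : Lin B C), Equivariant A B a ∧ Equivariant B C b ∧ Function.Injective a ∧
    Function.Exact a b ∧ Function.Surjective b

/-- `A = W b` has a filtration `0 = W a ⊆ … ⊆ W b` such that the graded piece `G w = W w / W (w - 1)`
has the property `P w`. -/
def Filtered (P : ℤ → FrobModule E → Prop) (A : FrobModule E) : Prop :=
  ∃ (W G : ℤ → FrobModule E) (a b : ℤ), a ≤ b ∧ Subsingleton (W a).V ∧ W b = A ∧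
    ∀ w, a < w → w ≤ b → IsExtension (W (w - 1)) (W w) (G w) ∧ P w (G w)

/-- All eigenvalues of `F` are algebraic numbers all of whose complex conjugates have absolute value
`q ^ (w / 2)`. -/
def IsPure [CharZero E] (q : ℕ) (w : ℤ) (A : FrobModule E) : Prop :=
  ∀ (μ : E) (x : A.V), x ≠ 0 → A.F x = μ • x → IsWeil q w μ

/-- `F` has no Jordan block of size at least two for the eigenvalues of weight `w`. -/
def NoBlocks [CharZero E] (q : ℕ) (w : ℤ) (A : FrobModule E) : Prop :=
  ∀ μ : E, IsWeil q w μ → NB A.F μ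

end defs

section

variable {E : Type} [Field E] [CharZero E] {A B C : FrobModule E} {q : ℕ} {w : ℤ}

theorem NoBlocks.of_subsingleton (h : Subsingleton A.V) : A.NoBlocks q w :=
  fun _ _ _ _ => Subsingleton.elim _ _

theorem Semisimple.noBlocks (h : A.Semisimple) : A.NoBlocks q w := fun μ _ => nb_of_iSup h μ

theorem NoBlocks.semisimple [IsAlgClosed E] (h : A.NoBlocks q w) (hp : A.IsPure q w) :
    A.Semisimple := by
  apply iSup_of_nb
  intro μ x hx
  by_cases h0 : A.F x - μ • x = 0
  · exact sub_eq_zero.1 h0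
  · exact h μ (hp μ _ h0 hx) x hx

theorem NoBlocks.of_equivariant {u : Lin A B} (hu : Function.Injective u)
    (he : Equivariant A B u) (h : B.NoBlocks q w) : A.NoBlocks q w :=
  fun μ hμ => nb_sub hu he (h μ hμ)

theorem NoBlocks.twist [IsAlgClosed E] (hq : 2 ≤ q) {r : ℕ} (h : A.NoBlocks q w)
    (ht : IsTwist ((q : E) ^ r) A B) {v : ℤ} (hv : v = w + 2 * r) : B.NoBlocks q v := by
  obtain ⟨u, hu, he⟩ := ht
  have hq0 : ((q : E) ^ r) ≠ 0 := pow_ne_zero _ (Nat.cast_ne_zero.2 (by omega))
  intro μ hμ
  have h1 : IsWeil q w (((q : E) ^ r)⁻¹ * μ) := by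
    have h2 := isWeil_mul hq (-(r : ℤ)) hμ
    rw [zpow_neg, zpow_natCast] at h2
    have h3 : v + 2 * -(r : ℤ) = w := by rw [hv]; ring
    rwa [h3] at h2
  have h2 := nb_smul' hq0 (h _ h1)
  rw [mul_inv_cancel_left₀ hq0] at h2
  refine nb_quot hu.2 (f := (q : E) ^ r • A.F) (fun x => ?_) h2
  have := he x
  rwa [pow_one] at this

theorem NoBlocks.untwist (hq : 2 ≤ q) {r : ℕ} {v : ℤ} (h : B.NoBlocks q v)
    (ht : IsTwist ((q : E) ^ r) A B) (hv : v = w + 2 * r) : A.NoBlocks q w := by
  obtain ⟨u, hu, he⟩ := ht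
  have hq0 : ((q : E) ^ r) ≠ 0 := pow_ne_zero _ (Nat.cast_ne_zero.2 (by omega))
  intro μ hμ
  have h1 : IsWeil q v ((q : E) ^ r * μ) := by
    have h2 := isWeil_mul hq (r : ℤ) hμ
    rw [zpow_natCast, ← hv] at h2
    exact h2
  refine nb_smul hq0 (nb_sub hu.1 (fun x => ?_) (h _ h1))
  have := he x
  rwa [pow_one] at this

theorem Semisimple.sub [IsAlgClosed E] {a : ℕ} (h : B.Semisimple) (hs : IsSub a A B) :
    A.Semisimple := by
  obtain ⟨u, hu, he⟩ := hs
  have he' : ∀ x, u (A.F x) = (B.F ^ a) (u x) := by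
    intro x
    have := he x
    rwa [one_smul] at this
  exact iSup_of_nb fun μ => nb_sub hu he' (nb_of_iSup (iSup_pow h a) μ)

theorem Semisimple.subquotient [IsAlgClosed E] (h : B.Semisimple) (hs : IsSubquotient A B) :
    A.Semisimple := by
  obtain ⟨C, hC, u, hu, he⟩ := hs
  have h1 := h.sub hC
  refine iSup_of_nb fun μ => nb_quot hu (fun x => ?_) (nb_of_iSup h1 μ)
  have := he x
  rwa [one_smul, pow_one] at this

theorem IsPure.subquotient [IsAlgClosed E] (h : B.IsPure q w) (hs : IsSubquotient A B) :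
    A.IsPure q w := by
  obtain ⟨C, ⟨i, hi, hie⟩, u, hu, he⟩ := hs
  intro μ y hy hyμ
  have hy1 : y ∈ A.F.maxGenEigenspace μ := by
    rw [Module.End.mem_maxGenEigenspace]
    refine ⟨1, ?_⟩
    rw [pow_one]
    change A.F y - μ • y = 0
    rw [hyμ, sub_self]
  obtain ⟨x, hx, hxy⟩ := exists_lift hu (f := C.F) (g := A.F) (fun x => by
    have := he x
    rwa [one_smul, pow_one] at this) hy1
  have hx0 : x ≠ 0 := by
    rintro rfl
    rw [map_zero] at hxy
    exact hy hxy.symm
  rw [Module.End.mem_maxGenEigenspace] at hx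
  -- an honest eigenvector of `C`
  have key : ∀ (k : ℕ) (x : C.V), x ≠ 0 → ((C.F - μ • (1 : Module.End E C.V)) ^ k) x = 0 →
      ∃ z, z ≠ 0 ∧ C.F z = μ • z := by
    intro k
    induction k with
    | zero =>
      intro x hx hk
      exact absurd hk hx
    | succ k ih =>
      intro x hx hk
      by_cases h0 : (C.F - μ • (1 : Module.End E C.V)) x = 0
      · exact ⟨x, hx, sub_eq_zero.1 h0⟩
      · rw [pow_succ] at hk
        exact ih _ h0 hk
  obtain ⟨k, hk⟩ := hx
  obtain ⟨z, hz, hzμ⟩ := key k x hx0 hk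
  refine h μ (i z) (fun h0 => hz (hi (by rw [h0, map_zero]))) ?_
  have h1 := hie z
  rw [one_smul, pow_one] at h1
  rw [← h1, hzμ, map_smul]

/-- A filtered object with semisimple graded pieces which are pure of different weights is
semisimple. -/
theorem Semisimple.of_filtered [IsAlgClosed E] (hq : 2 ≤ q)
    (h : Filtered (fun w G => G.Semisimple ∧ G.IsPure q w) A) : A.Semisimple := by
  obtain ⟨W, G, a, b, hab, h0, hb, hW⟩ := h
  have key : ∀ (n : ℕ) (w : ℤ), w = a + n → w ≤ b → (∀ μ, NB (W w).F μ) ∧
      ∀ (μ : E) (x : (W w).V), x ≠ 0 → (W w).F x = μ • x → ∃ v ≤ w, IsWeil q v μ := by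
    intro n
    induction n with
    | zero =>
      intro w hw _
      have h1 : w = a := by rw [hw]; simp
      subst h1
      exact ⟨fun μ x _ => Subsingleton.elim _ _, fun μ x hx => absurd (Subsingleton.elim x 0) hx⟩
    | succ n ih =>
      intro w hw hn
      push_cast at hw
      obtain ⟨h1, h2⟩ := ih (w - 1) (by rw [hw]; ring) (by linarith)
      obtain ⟨⟨i, p, hie, hpe, hi, hex, -⟩, hs, hp⟩ := hW w (by linarith) hn
      constructor
      · intro μ
        refine nb_ext hi hie hpe hex ?_ (h1 μ) (nb_of_iSup hs μ)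
        by_cases hμ : IsWeil q w μ
        · left
          intro x hx
          by_contra hx0
          obtain ⟨v, hv, hv2⟩ := h2 μ x hx0 hx
          have := isWeil_unique hq hμ hv2
          linarith
        · right
          intro y hy
          by_contra hy0
          exact hμ (hp μ y hy0 hy)
      · intro μ x hx hxμ
        by_cases hpx : p x = 0
        · obtain ⟨z, rfl⟩ := (hex x).1 hpx
          have hz : (W (w - 1)).F z = μ • z := by
            apply hi
            rw [hie z, hxμ, map_smul]
          obtain ⟨v, hv, hv2⟩ := h2 μ z (fun h => hx (by rw [h, map_zero])) hz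
          exact ⟨v, by linarith, hv2⟩
        · refine ⟨w, le_rfl, hp μ (p x) hpx ?_⟩
          rw [← hpe x, hxμ, map_smul]
  subst hb
  have h1 := (key (b - a).toNat b (by
    rw [Int.toNat_of_nonneg (by linarith)]
    ring) le_rfl).1
  exact iSup_of_nb h1

end

end FrobModule

end Pool.Agent.R908.SS
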