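import Pool.Agent.R908.SS.Theory

/-!
# Semisimplicity and smooth affine cubic hypersurfaces
-/

set_option autoImplicit false
set_option linter.all false

open AlgebraicGeometry CategoryTheory CategoryTheory.Limits MvPolynomial Pool.Agent.R904.CU

namespace Pool.Agent.R908.SS

/-- Every member `X` of the class `S` is separated of finite type over `K` and has an affine bundle
`E' → X` with `E'` an affine scheme. (For quasi-projective schemes this is Jouanolou's trick.) -/
def HasTorsors {K : Type} [Field K] (S : SchProp K) : Prop :=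
  ∀ X f, S X f → SepFinType K X f ∧ ∃ (r : ℕ) (E' : Scheme.{0}) (π : E' ⟶ X), IsAffine E' ∧
    SepFinType K E' (π ≫ f) ∧ IsAffineBundle r π

namespace GradedCohomology

variable {K : Type} [Field K] {E : Type} [Field E] {Γ : Type} [Group Γ]
  {T : GradedCohomology K E Γ} {c : Γ → Eˣ} (hT : T.IsCohomology c)

include hT

theorem ss_bundle {r : ℕ} {E' X : Scheme.{0}} (π : E' ⟶ X) (f : X ⟶ Spec (.of K))
    (hX : SepFinType K X f) (hE : SepFinType K E' (π ≫ f)) (hπ : IsAffineBundle r π) (n w : ℤ) :
    (T.H X f n w).Semisimple ↔ (T.H E' (π ≫ f) (n + 2 * r) (w + 2 * r)).Semisimple := by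
  have h := hT.bundle r E' X π f hX hE hπ n w _ _ rfl rfl
  exact ⟨fun hs => Rep.Semisimple.twist h hs, fun hs => Rep.Semisimple.twist h.symm hs⟩

theorem ss_iso {X Y : Scheme.{0}} (f : X ⟶ Spec (.of K)) (g : Y ⟶ Spec (.of K)) (e : X ≅ Y)
    (he : e.hom ≫ g = f) (hX : SepFinType K X f) (hY : SepFinType K Y g) (n w : ℤ)
    (h : (T.H Y g n w).Semisimple) : (T.H X f n w).Semisimple := by
  subst he
  have h1 := hT.bundle 0 X Y e.hom g hY hX (isAffineBundle_of_isIso e.hom) n w n w (by simp) (by simp)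
  exact Rep.Semisimple.twist h1 h

theorem subsingleton_space {σ : Type} [Fintype σ] (n w : ℤ) (hn : n ≠ 2 * Fintype.card σ) :
    Subsingleton (T.H (Spec (.of (MvPolynomial σ K)))
      (Spec.map (CommRingCat.ofHom (algebraMap K (MvPolynomial σ K)))) n w).V := by
  have hK : SepFinType K (Spec (.of K)) (𝟙 _) :=
    ⟨inferInstance, inferInstance, inferInstance⟩
  have hA : SepFinType K (Spec (.of (MvPolynomial σ K)))
      (Spec.map (CommRingCat.ofHom (algebraMap K (MvPolynomial σ K)))) :=
    (cls_sepFinType K).affine _ inferInstance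
  have h1 := hT.bundle (Fintype.card σ) _ _
    (Spec.map (CommRingCat.ofHom (algebraMap K (MvPolynomial σ K)))) (𝟙 _) hK
    (by rwa [Category.comp_id]) isAffineBundle_space (n - 2 * Fintype.card σ)
    (w - 2 * Fintype.card σ) n w (by ring) (by ring)
  rw [Category.comp_id] at h1
  obtain ⟨e, he, -⟩ := h1
  have := hT.point (n - 2 * Fintype.card σ) (w - 2 * Fintype.card σ) (by
    intro h
    exact hn (by linarith))
  exact (Equiv.ofBijective e he).symm.subsingleton

/-- the complement of the zeros of quadratic polynomials -/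
theorem ss_open {σ κ : Type} [Fintype σ] [Fintype κ] (g : κ → MvPolynomial σ K) (n w : ℤ)
    (h : (T.ofHyp (bigPoly g) (n + 2 * (Fintype.card κ - 1 : ℕ))
      (w + 2 * (Fintype.card κ - 1 : ℕ))).Semisimple) :
    (T.H (openU g)
      ((openU g).ι ≫ Spec.map (CommRingCat.ofHom (algebraMap K (MvPolynomial σ K)))) n
      w).Semisimple := by
  have hA : SepFinType K (Spec (.of (MvPolynomial σ K)))
    (Spec.map (CommRingCat.ofHom (algebraMap K (MvPolynomial σ K)))) :=
    (cls_sepFinType K).affine _ inferInstance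
  have hU := (cls_sepFinType K).opn _ _ _ (openU g).ι inferInstance hA
  have hcomm : proj g ≫ (openU g).ι ≫
      Spec.map (CommRingCat.ofHom (algebraMap K (MvPolynomial σ K))) =
      Spec.map (CommRingCat.ofHom (algebraMap K (Ring1 g))) := by
    rw [← Category.assoc, proj_ι]
    unfold proj0
    rw [← Spec.map_comp, ← CommRingCat.ofHom_comp]
  have hR : SepFinType K (Spec (.of (Ring1 g)))
      (Spec.map (CommRingCat.ofHom (algebraMap K (Ring1 g)))) :=
    (cls_sepFinType K).affine _ inferInstance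
  have hE : SepFinType K (Spec (.of (Ring1 g))) (proj g ≫ (openU g).ι ≫
      Spec.map (CommRingCat.ofHom (algebraMap K (MvPolynomial σ K)))) := by
    rw [hcomm]
    exact hR
  rw [ss_bundle hT (proj g) _ hU hE (isAffineBundle_proj g), hcomm]
  let e : (MvPolynomial (κ ⊕ σ) K ⧸ Ideal.span {bigPoly g}) ≃ₐ[K] Ring1 g :=
    Ideal.quotientEquivAlg _ _ (sumAlgEquiv K κ σ) (by
      rw [Ideal.map_span, Set.image_singleton]
      congr 2
      exact (sumAlgEquiv_bigPoly g).symm)
  refine ss_iso hT _ (hyp (bigPoly g))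
    (Scheme.Spec.mapIso e.toRingEquiv.toCommRingCatIso.op) ?_ hR
    ((cls_sepFinType K).affine _ inferInstance) _ _ h
  change Spec.map (CommRingCat.ofHom e.toRingEquiv.toRingHom) ≫ hyp (bigPoly g) = _
  unfold hyp
  rw [← Spec.map_comp, ← CommRingCat.ofHom_comp]
  congr 2
  exact e.toAlgHom.comp_algebraMap

/-- the zeros of quadratic polynomials, not all of them zero -/
theorem ss_closed {σ κ : Type} [Fintype σ] [Fintype κ] (g : κ → MvPolynomial σ K)
    (hg : ∃ k, g k ≠ 0) (n w : ℤ)
    (h : (T.H (openU g) ((openU g).ι ≫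
      Spec.map (CommRingCat.ofHom (algebraMap K (MvPolynomial σ K)))) (n + 1) w).Semisimple) :
    (T.H (Spec (.of (MvPolynomial σ K ⧸ Ideal.span (Set.range g))))
      (Spec.map (CommRingCat.ofHom (algebraMap K (MvPolynomial σ K ⧸ Ideal.span (Set.range g)))))
      n w).Semisimple := by
  have hA : SepFinType K (Spec (.of (MvPolynomial σ K)))
    (Spec.map (CommRingCat.ofHom (algebraMap K (MvPolynomial σ K)))) :=
    (cls_sepFinType K).affine _ inferInstance
  have hZ : SepFinType K (Spec (.of (MvPolynomial σ K ⧸ Ideal.span (Set.range g))))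
      (Spec.map (CommRingCat.ofHom (algebraMap K
        (MvPolynomial σ K ⧸ Ideal.span (Set.range g))))) :=
    (cls_sepFinType K).affine _ inferInstance
  have h5 : closedZ g ≫ Spec.map (CommRingCat.ofHom (algebraMap K (MvPolynomial σ K))) =
      Spec.map (CommRingCat.ofHom (algebraMap K
        (MvPolynomial σ K ⧸ Ideal.span (Set.range g)))) := by
    unfold closedZ
    rw [← Spec.map_comp, ← CommRingCat.ofHom_comp]
  by_cases hn : n = 2 * Fintype.card σ
  · obtain ⟨k, hk⟩ := hg
    have hd := dim_quotient_lt (Ideal.span (Set.range g)) ⟨g k, Ideal.subset_span ⟨k, rfl⟩, hk⟩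
    have := hT.vanish _ _ hZ _ hd n w (Or.inr (by linarith))
    exact Rep.Semisimple.of_subsingleton this
  · obtain ⟨a, b, ha, hb, hab⟩ := hT.localization _ _ _ _ (closedZ g) (openU g).ι hA inferInstance
      inferInstance (range_closedZ g) n w
    have hs := subsingleton_space hT n w hn
    have hinj : Function.Injective b := by
      rw [injective_iff_map_eq_zero]
      intro x hx
      obtain ⟨y, rfl⟩ := (hab x).1 hx
      have : y = 0 := Subsingleton.elim _ _
      rw [this, map_zero]
    have h6 := h.sub hinj hb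
    rwa [h5] at h6

variable {δ : ℤ} (hJ : ∀ (σ : Type) [Fintype σ] (F : MvPolynomial σ K), IsSmoothCubic F →
  ∀ n w : ℤ, n - w = δ + 1 → (T.ofHyp F n w).Semisimple)

include hJ

theorem ss_affine (B : Type) [CommRing B] [Algebra K B] (hB : Algebra.FiniteType K B) (n w : ℤ)
    (hn : n - w = δ) :
    (T.H (Spec (.of B)) (Spec.map (CommRingCat.ofHom (algebraMap K B))) n w).Semisimple := by
  obtain ⟨σ, κ, _, _, g, hg, hg0, ⟨e⟩⟩ := exists_quadratic_ne_zero K B
  have h1 := ss_open hT g (n + 1) w (hJ _ _ (isSmoothCubic_bigPoly g hg) _ _ (by linarith))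
  have h2 := ss_closed hT g hg0 n w h1
  refine ss_iso hT _ _ (Scheme.Spec.mapIso e.toRingEquiv.toCommRingCatIso.op) ?_
    ((cls_sepFinType K).affine _ inferInstance) ((cls_sepFinType K).affine _ inferInstance) n w h2
  change Spec.map (CommRingCat.ofHom e.toRingEquiv.toRingHom) ≫ _ = _
  rw [← Spec.map_comp, ← CommRingCat.ofHom_comp]
  congr 2
  exact e.toAlgHom.comp_algebraMap

theorem ss_affine' (X : Scheme.{0}) [IsAffine X] (f : X ⟶ Spec (.of K)) (hf : SepFinType K X f)
    (n w : ℤ) (hn : n - w = δ) : (T.H X f n w).Semisimple := by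
  have hft := hf.1
  obtain ⟨φ, hφ⟩ := Spec.map_surjective (X.isoSpec.inv ≫ f)
  have hft2 : LocallyOfFiniteType (Spec.map φ) := by
    rw [hφ]
    infer_instance
  have hφ2 : φ.hom.FiniteType := HasRingHomProperty.Spec_iff.mp hft2
  algebraize [φ.hom]
  have h1 := ss_affine hT hJ Γ(X, ⊤) ‹_› n w hn
  have hC := (cls_sepFinType K).affine Γ(X, ⊤) ‹_›
  refine ss_iso hT f _ X.isoSpec ?_ hf hC n w h1
  have h3 : Spec.map (CommRingCat.ofHom (algebraMap K Γ(X, ⊤))) = X.isoSpec.inv ≫ f := hφ
  rw [h3, Iso.hom_inv_id_assoc]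

theorem ss_torsor {S : SchProp K} (hS : HasTorsors S) (X : Scheme.{0}) (f : X ⟶ Spec (.of K))
    (hX : S X f) (n w : ℤ) (hn : n - w = δ) : (T.H X f n w).Semisimple := by
  obtain ⟨h1, r, E', π, hE, hE', hπ⟩ := hS X f hX
  rw [ss_bundle hT π f h1 hE' hπ]
  exact ss_affine' hT hJ E' _ hE' _ _ (by linarith)

end GradedCohomology

end Pool.Agent.R908.SS
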