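import Mathlib

/-!
# Semisimple representations: subobjects, quotients, twists, induced representations
-/

set_option autoImplicit false
set_option linter.all false

namespace Pool.Agent.R908.SS

/-- a representation of the group `Γ` on a vector space over `E` -/
structure Rep (E Γ : Type) [Field E] [Group Γ] where
  V : Type
  [grp : AddCommGroup V]
  [mod : Module E V]
  ρ : Representation E Γ V

attribute [instance] Rep.grp Rep.mod

namespace Rep

section defs

variable {E Γ Δ : Type} [Field E] [Group Γ] [Group Δ]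

/-- the action of an element of the group -/
def act (A : Rep E Γ) (γ : Γ) : A.V →ₗ[E] A.V := A.ρ γ

/-- the linear maps -/
abbrev Lin (A : Rep E Γ) (B : Rep E Δ) : Type := A.V →ₗ[E] B.V

/-- `W` is stable under the group. -/
def Stable (A : Rep E Γ) (W : Submodule E A.V) : Prop := ∀ γ, ∀ x ∈ W, A.act γ x ∈ W

/-- Every stable subspace has a stable complement. -/
def Semisimple (A : Rep E Γ) : Prop :=
  ∀ W : Submodule E A.V, A.Stable W → ∃ W' : Submodule E A.V, A.Stable W' ∧ IsCompl W W'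

/-- `u γ = c(γ) γ u` -/
def Compatible (c : Γ → Eˣ) (A B : Rep E Γ) (u : Lin A B) : Prop :=
  ∀ γ x, u (A.act γ x) = (c γ : E) • B.act γ (u x)

/-- `u` commutes with the actions of the group. -/
def Equivariant (A B : Rep E Γ) (u : Lin A B) : Prop := ∀ γ x, u (A.act γ x) = B.act γ (u x)

/-- There is an exact sequence `A → B → C` of representations. -/
def ExactAt (A B C : Rep E Γ) : Prop :=
  ∃ (a : Lin A B) (b : Lin B C), Equivariant A B a ∧ Equivariant B C b ∧ Function.Exact a b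

/-- `B` is isomorphic to the twist of `A` by the character `c⁻¹`. -/
def IsTwist (c : Γ → Eˣ) (A B : Rep E Γ) : Prop :=
  ∃ u : Lin A B, Function.Bijective u ∧ Compatible c A B u

/-- `B` is isomorphic to a quotient of the twist of `A` by the character `c⁻¹`. -/
def IsTwistedQuotient (c : Γ → Eˣ) (A B : Rep E Γ) : Prop :=
  ∃ u : Lin A B, Function.Surjective u ∧ Compatible c A B u

/-- `A` is a quotient of a subrepresentation of `B`. -/
def IsSubquotient (A B : Rep E Γ) : Prop :=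
  ∃ (C : Rep E Γ) (i : Lin C B) (p : Lin C A), Function.Injective i ∧ Equivariant C B i ∧
    Function.Surjective p ∧ Equivariant C A p

/-- the restriction along a homomorphism `Δ → Γ` -/
def restrict (φ : Δ →* Γ) (A : Rep E Γ) : Rep E Δ where
  V := A.V
  ρ := A.ρ.comp φ

/-- `A₀` is a direct summand of the restriction of `A` along `φ : Δ → Γ`, and the elements outside the
image of `φ` carry this summand into the complementary one. (This holds if `A` is induced by `A₀`.) -/
def IsInducedSummand (φ : Δ →* Γ) (A₀ : Rep E Δ) (A : Rep E Γ) : Prop :=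
  ∃ (i : Lin A₀ A) (p : Lin A A₀), (∀ x, p (i x) = x) ∧ Equivariant A₀ (A.restrict φ) i ∧
    Equivariant (A.restrict φ) A₀ p ∧ ∀ γ ∉ φ.range, ∀ x, p (A.act γ (i x)) = 0

/-- `γ` acts on `A` as `δ` on `B`, under the isomorphism `e`. -/
def SameAction (A : Rep E Γ) (B : Rep E Δ) (e : A.V ≃ₗ[E] B.V) (γ : Γ) (δ : Δ) : Prop :=
  ∀ x, e (A.act γ x) = B.act δ (e x)

/-- After an isomorphism of the spaces, the two representations have the same image. -/
def SameImage (A : Rep E Γ) (B : Rep E Δ) : Prop :=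
  ∃ e : A.V ≃ₗ[E] B.V, (∀ γ, ∃ δ, SameAction A B e γ δ) ∧ ∀ δ, ∃ γ, SameAction A B e γ δ

end defs

section

variable {E Γ : Type} [Field E] [Group Γ] {A B : Rep E Γ}

theorem Semisimple.sub (h : B.Semisimple) {i : Lin A B} (hi : Function.Injective i)
    (he : Equivariant A B i) : A.Semisimple := by
  intro W hW
  obtain ⟨Q, hQ, hc⟩ := h (W.map i) (by
    rintro γ _ ⟨x, hx, rfl⟩
    exact ⟨A.act γ x, hW γ x hx, he γ x⟩)
  refine ⟨Q.comap i, fun γ x hx => ?_, ?_, ?_⟩
  · rw [Submodule.mem_comap, he]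
    exact hQ γ _ hx
  · rw [Submodule.disjoint_def]
    intro x hx hx'
    have h1 := Submodule.disjoint_def.1 hc.disjoint (i x) ⟨x, hx, rfl⟩ hx'
    exact hi (by rw [h1, map_zero])
  · rw [codisjoint_iff, Submodule.eq_top_iff']
    intro x
    have h1 : i x ∈ W.map i ⊔ Q := by
      rw [hc.sup_eq_top]
      trivial
    obtain ⟨_, ⟨y, hy, rfl⟩, z, hz, hyz⟩ := Submodule.mem_sup.1 h1
    refine Submodule.mem_sup.2 ⟨y, hy, x - y, ?_, by abel⟩
    rw [Submodule.mem_comap, map_sub, ← hyz, add_sub_cancel_left]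
    exact hz

theorem Semisimple.twistedQuotient {c : Γ → Eˣ} (h : A.Semisimple)
    (hq : IsTwistedQuotient c A B) : B.Semisimple := by
  obtain ⟨p, hp, he⟩ := hq
  intro W hW
  obtain ⟨Q, hQ, hc⟩ := h (W.comap p) (by
    intro γ x hx
    rw [Submodule.mem_comap, he]
    exact W.smul_mem _ (hW γ _ hx))
  refine ⟨Q.map p, ?_, ?_, ?_⟩
  · rintro γ _ ⟨x, hx, rfl⟩
    refine ⟨((c γ)⁻¹ : Eˣ) • A.act γ x, Q.smul_mem _ (hQ γ x hx), ?_⟩
    rw [Units.smul_def, map_smul, he, smul_smul, ← Units.val_mul, inv_mul_cancel, Units.val_one,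
      one_smul]
  · rw [Submodule.disjoint_def]
    rintro _ hx ⟨x, hxQ, rfl⟩
    have h1 := Submodule.disjoint_def.1 hc.disjoint x hx hxQ
    rw [h1, map_zero]
  · rw [codisjoint_iff, Submodule.eq_top_iff']
    intro y
    obtain ⟨x, rfl⟩ := hp y
    have h1 : x ∈ W.comap p ⊔ Q := by
      rw [hc.sup_eq_top]
      trivial
    obtain ⟨a, ha, z, hz, haz⟩ := Submodule.mem_sup.1 h1
    refine Submodule.mem_sup.2 ⟨p a, ha, p z, ⟨z, hz, rfl⟩, ?_⟩
    rw [← map_add, haz]

theorem Semisimple.subquotient (h : B.Semisimple) (hs : IsSubquotient A B) : A.Semisimple := by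
  obtain ⟨C, i, p, hi, hie, hp, hpe⟩ := hs
  refine (h.sub hi hie).twistedQuotient (c := fun _ => 1) ⟨p, hp, fun γ x => ?_⟩
  rw [hpe, Units.val_one, one_smul]

theorem IsTwist.symm {c : Γ → Eˣ} (ht : IsTwist c A B) : IsTwist (fun γ => (c γ)⁻¹) B A := by
  obtain ⟨u, hu, he⟩ := ht
  let e : A.V ≃ₗ[E] B.V := LinearEquiv.ofBijective u hu
  have h1 : ∀ x, u (e.symm x) = x := fun x => e.apply_symm_apply x
  refine ⟨e.symm.toLinearMap, e.symm.bijective, fun γ x => ?_⟩
  apply hu.1
  change u (e.symm (B.act γ x)) = u ((((c γ)⁻¹ : Eˣ) : E) • A.act γ (e.symm x))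
  rw [map_smul, he, h1, h1, smul_smul, ← Units.val_mul, inv_mul_cancel, Units.val_one, one_smul]

theorem Semisimple.twist {c : Γ → Eˣ} (ht : IsTwist c A B) (h : A.Semisimple) :
    B.Semisimple := by
  obtain ⟨u, hu, he⟩ := ht
  exact h.twistedQuotient ⟨u, hu.2, he⟩

theorem Semisimple.of_subsingleton (h : Subsingleton A.V) : A.Semisimple := by
  intro W _
  refine ⟨⊥, fun γ x hx => ?_, ?_, ?_⟩
  · rw [Submodule.mem_bot] at hx ⊢
    rw [hx, map_zero]
  · exact disjoint_bot_right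
  · rw [codisjoint_iff, Submodule.eq_top_iff']
    intro x
    have : x = 0 := Subsingleton.elim _ _
    rw [this]
    exact Submodule.zero_mem _

end

section induced

variable {E Γ Δ : Type} [Field E] [Group Γ] [Group Δ]

theorem Semisimple.ofInduced {φ : Δ →* Γ} {A₀ : Rep E Δ} {A : Rep E Γ}
    (hi : IsInducedSummand φ A₀ A) (h : A.Semisimple) : A₀.Semisimple := by
  classical
  obtain ⟨i, p, hpi, hie, hpe, h0⟩ := hi
  have hie' : ∀ δ x, i (A₀.act δ x) = A.act (φ δ) (i x) := hie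
  have hpe' : ∀ δ x, p (A.act (φ δ) x) = A₀.act δ (p x) := hpe
  intro W₀ hW₀
  let W : Submodule E A.V := ⨆ γ : Γ, W₀.map ((A.act γ) ∘ₗ i)
  have hW : A.Stable W := by
    intro γ x hx
    have h1 : W ≤ W.comap (A.act γ) := by
      refine iSup_le fun δ => ?_
      rintro _ ⟨y, hy, rfl⟩
      rw [Submodule.mem_comap]
      refine Submodule.mem_iSup_of_mem (γ * δ) ⟨y, hy, ?_⟩
      change A.ρ (γ * δ) (i y) = A.ρ γ (A.ρ δ (i y))
      rw [map_mul]
      rfl
    exact h1 hx
  have hpW : ∀ x ∈ W, p x ∈ W₀ := by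
    have h1 : W ≤ W₀.comap p := by
      refine iSup_le fun δ => ?_
      rintro _ ⟨y, hy, rfl⟩
      rw [Submodule.mem_comap]
      change p (A.act δ (i y)) ∈ W₀
      by_cases hδ : δ ∈ φ.range
      · obtain ⟨ε, rfl⟩ := hδ
        have h2 := hpe' ε (i y)
        rw [hpi] at h2
        rw [h2]
        exact hW₀ _ _ hy
      · rw [h0 δ hδ]
        exact W₀.zero_mem
    exact fun x hx => h1 hx
  have hiW : ∀ x ∈ W₀, i x ∈ W := by
    intro x hx
    refine Submodule.mem_iSup_of_mem 1 ⟨x, hx, ?_⟩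
    change A.ρ 1 (i x) = i x
    rw [map_one]
    rfl
  obtain ⟨Q, hQ, hc⟩ := h W hW
  -- for `x` in `V₀`, the component in `W`
  have hex : ∀ x : A.V, ∃ y ∈ W, x - y ∈ Q := by
    intro x
    have h1 : x ∈ W ⊔ Q := by
      rw [hc.sup_eq_top]
      trivial
    obtain ⟨y, hy, z, hz, hyz⟩ := Submodule.mem_sup.1 h1
    exact ⟨y, hy, by rw [← hyz, add_sub_cancel_left]; exact hz⟩
  have huniq : ∀ x y z : A.V, y ∈ W → z ∈ W → x - y ∈ Q → x - z ∈ Q → y = z := by
    intro x y z hy hz hxy hxz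
    have h1 : y - z ∈ W := W.sub_mem hy hz
    have h2 : y - z ∈ Q := by
      have h3 := Q.sub_mem hxz hxy
      have h4 : x - z - (x - y) = y - z := by abel
      rwa [h4] at h3
    exact sub_eq_zero.1 (Submodule.disjoint_def.1 hc.disjoint _ h1 h2)
  let Q₀ : Submodule E A₀.V :=
    { carrier := {x | ∃ y ∈ W, i x - y ∈ Q ∧ p y = 0}
      add_mem' := by
        rintro a b ⟨y, hy, hyQ, hy0⟩ ⟨z, hz, hzQ, hz0⟩
        refine ⟨y + z, W.add_mem hy hz, ?_, by rw [map_add, hy0, hz0, add_zero]⟩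
        have h3 := Q.add_mem hyQ hzQ
        have h4 : i a - y + (i b - z) = i (a + b) - (y + z) := by
          rw [map_add]
          abel
        rwa [h4] at h3
      zero_mem' := ⟨0, W.zero_mem, by rw [map_zero, sub_zero]; exact Q.zero_mem, map_zero _⟩
      smul_mem' := by
        rintro c a ⟨y, hy, hyQ, hy0⟩
        refine ⟨c • y, W.smul_mem _ hy, ?_, by rw [map_smul, hy0, smul_zero]⟩
        rw [map_smul, ← smul_sub]
        exact Q.smul_mem _ hyQ }
  refine ⟨Q₀, ?_, ?_, ?_⟩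
  · rintro δ x ⟨y, hy, hyQ, hy0⟩
    refine ⟨A.act (φ δ) y, hW _ _ hy, ?_, by rw [hpe', hy0, map_zero]⟩
    rw [hie', ← map_sub]
    exact hQ _ _ hyQ
  · rw [Submodule.disjoint_def]
    rintro x hx ⟨y, hy, hyQ, hy0⟩
    have h1 : y = i x := huniq (i x) y (i x) hy (hiW x hx) hyQ (by
      rw [sub_self]
      exact Q.zero_mem)
    rw [h1, hpi] at hy0
    exact hy0
  · rw [codisjoint_iff, Submodule.eq_top_iff']
    intro x
    obtain ⟨y, hy, hyQ⟩ := hex (i x)
    refine Submodule.mem_sup.2 ⟨p y, hpW y hy, x - p y, ?_, by abel⟩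
    refine ⟨y - i (p y), W.sub_mem hy (hiW _ (hpW y hy)), ?_, ?_⟩
    · have h4 : i (x - p y) - (y - i (p y)) = i x - y := by
        rw [map_sub]
        abel
      rw [h4]
      exact hyQ
    · rw [map_sub, hpi, sub_self]

theorem Semisimple.sameImage {A : Rep E Γ} {B : Rep E Δ} (hs : SameImage A B)
    (h : B.Semisimple) : A.Semisimple := by
  obtain ⟨e, h1, h2⟩ := hs
  intro W hW
  obtain ⟨Q, hQ, hc⟩ := h (W.map e.toLinearMap) (by
    rintro δ _ ⟨x, hx, rfl⟩
    obtain ⟨γ, hγ⟩ := h2 δ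
    exact ⟨A.act γ x, hW γ x hx, hγ x⟩)
  refine ⟨Q.comap e.toLinearMap, fun γ x hx => ?_, ?_, ?_⟩
  · obtain ⟨δ, hγ⟩ := h1 γ
    change e (A.act γ x) ∈ Q
    rw [hγ]
    exact hQ δ _ hx
  · rw [Submodule.disjoint_def]
    intro x hx hx'
    have h1 := Submodule.disjoint_def.1 hc.disjoint (e x) ⟨x, hx, rfl⟩ hx'
    exact e.injective (by rw [h1, map_zero])
  · rw [codisjoint_iff, Submodule.eq_top_iff']
    intro x
    have h1 : e x ∈ W.map e.toLinearMap ⊔ Q := by
      rw [hc.sup_eq_top]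
      trivial
    obtain ⟨_, ⟨y, hy, rfl⟩, z, hz, hyz⟩ := Submodule.mem_sup.1 h1
    refine Submodule.mem_sup.2 ⟨y, hy, x - y, ?_, by abel⟩
    change e (x - y) ∈ Q
    rw [map_sub, ← hyz]
    change e y + z - e y ∈ Q
    rw [add_sub_cancel_left]
    exact hz

end induced

end Rep

end Pool.Agent.R908.SS
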