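import Pool.Agent.R904.CU.Main
import Pool.Agent.R908.SS.Rep

/-!
# Graded pieces of the cohomology with compact supports, with the action of a Galois group
-/

set_option autoImplicit false
set_option linter.all false

open AlgebraicGeometry CategoryTheory CategoryTheory.Limits MvPolynomial Pool.Agent.R904.CU

namespace Pool.Agent.R908.SS

/-- For a separated scheme `X` of finite type over `K` and integers `n`, `w`: the representation
`H X f n w` of `Γ`, to be thought of as the graded piece `gr^W_w H^n_c(X)` of the weight filtration on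
the `ℓ`-adic cohomology with compact supports. -/
structure GradedCohomology (K : Type) [Field K] (E : Type) [Field E] (Γ : Type) [Group Γ] where
  H : ∀ X : Scheme.{0}, (X ⟶ Spec (.of K)) → ℤ → ℤ → Rep E Γ

namespace GradedCohomology

variable {K : Type} [Field K] {E : Type} [Field E] {Γ : Type} [Group Γ] (T : GradedCohomology K E Γ)

/-- the cohomology of the affine hypersurface `F = 0` -/
noncomputable def ofHyp {σ : Type} (F : MvPolynomial σ K) (n w : ℤ) : Rep E Γ := T.H _ (hyp F) n w

/-- for a closed subscheme `Z` of `X` and its complement `U`: the exact sequences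
`H^n_c(X) → H^n_c(Z) → H^{n+1}_c(U)` -/
def Localization : Prop :=
  ∀ (X Z U : Scheme.{0}) (f : X ⟶ Spec (.of K)) (i : Z ⟶ X) (j : U ⟶ X), SepFinType K X f →
    IsClosedImmersion i → IsOpenImmersion j → Set.range i = (Set.range j)ᶜ → ∀ n w : ℤ,
    Rep.ExactAt (T.H X f n w) (T.H Z (i ≫ f) n w) (T.H U (j ≫ f) (n + 1) w)

/-- `H^{n+2r}_c(E') = H^n_c(X)(-r)` for an affine bundle `E' → X` of rank `r`; the character `c` is
the cyclotomic one -/
def Bundle (c : Γ → Eˣ) : Prop :=
  ∀ (r : ℕ) (E' X : Scheme.{0}) (π : E' ⟶ X) (f : X ⟶ Spec (.of K)), SepFinType K X f →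
    SepFinType K E' (π ≫ f) → IsAffineBundle r π → ∀ n w m v : ℤ, m = n + 2 * r → v = w + 2 * r →
    Rep.IsTwist (fun γ => c γ ^ r) (T.H X f n w) (T.H E' (π ≫ f) m v)

/-- The formal properties of the cohomology with compact supports. -/
structure IsCohomology (c : Γ → Eˣ) : Prop where
  point : ∀ n w : ℤ, n ≠ 0 → Subsingleton (T.H (Spec (.of K)) (𝟙 _) n w).V
  vanish : ∀ X f, SepFinType K X f → ∀ d : ℕ, topologicalKrullDim X < d →
    ∀ n w : ℤ, n < 0 ∨ 2 * (d - 1) < n → Subsingleton (T.H X f n w).V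
  localization : T.Localization
  bundle : T.Bundle c

end GradedCohomology

/-! ### affine bundles -/

theorem isAffineBundle_of_isIso {X Y : Scheme.{0}} (π : Y ⟶ X) [IsIso π] : IsAffineBundle 0 π := by
  intro x
  obtain ⟨_, ⟨V, hV, rfl⟩, hxV, -⟩ :=
    X.isBasis_affineOpens.exists_subset_of_mem_open (Set.mem_univ x) isOpen_univ
  have hV' : IsAffineOpen V := hV
  have hC : IsIso (CommRingCat.ofHom
      (C : Γ(X, V) →+* MvPolynomial Empty Γ(X, V))) := by
    have h1 : Function.Bijective (C : Γ(X, V) →+* MvPolynomial Empty Γ(X, V)) :=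
      ⟨C_injective _ _, C_surjective _⟩
    exact (ConcreteCategory.isIso_iff_bijective _).2 h1
  refine ⟨Γ(X, V), hV'.fromSpec, Empty, inferInstance,
    Spec.map (CommRingCat.ofHom C) ≫ hV'.fromSpec ≫ inv π, rfl, inferInstance, ?_, ?_⟩
  · rw [hV'.range_fromSpec]
    exact hxV
  · exact IsPullback.of_vert_isIso ⟨by simp⟩

theorem isAffineBundle_space {K : Type} [Field K] {σ : Type} [Fintype σ] :
    IsAffineBundle (Fintype.card σ)
      (Spec.map (CommRingCat.ofHom (algebraMap K (MvPolynomial σ K)))) := by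
  intro x
  refine ⟨.of K, 𝟙 _, σ, inferInstance, 𝟙 _, rfl, inferInstance, ?_, ?_⟩
  · exact ⟨x, rfl⟩
  · exact IsPullback.of_horiz_isIso ⟨by rw [Category.id_comp, Category.comp_id]; rfl⟩

/-- a finitely generated algebra over a field has a presentation by quadratic polynomials which are not
all zero -/
theorem exists_quadratic_ne_zero (K : Type) [Field K] (B : Type) [CommRing B]
    [Algebra K B] [Algebra.FiniteType K B] :
    ∃ (σ κ : Type) (_ : Fintype σ) (_ : Fintype κ) (g : κ → MvPolynomial σ K),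
      (∀ k, (g k).totalDegree ≤ 2) ∧ (∃ k, g k ≠ 0) ∧
      Nonempty ((MvPolynomial σ K ⧸ Ideal.span (Set.range g)) ≃ₐ[K] B) := by
  obtain ⟨n, p, hp⟩ := Algebra.FiniteType.iff_quotient_mvPolynomial''.1
    (inferInstance : Algebra.FiniteType K B)
  obtain ⟨r, f, hf⟩ := (Submodule.fg_iff_exists_fin_generating_family.1
    (IsNoetherian.noetherian (RingHom.ker p)))
  have hker : RingHom.ker p = Ideal.span (Set.range f) := hf.symm
  let D : ℕ := (∑ k, (f k).totalDegree) + 1
  have hD : 0 < D := Nat.succ_pos _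
  have hbd : ∀ k, ∀ s ∈ (f k).support, ∀ i, s i ≤ D := by
    intro k s hs i
    have h1 : s i ≤ s.degree := by
      rw [Finsupp.degree]
      by_cases hi : i ∈ s.support
      · exact Finset.single_le_sum (f := fun i => s i) (fun j _ => Nat.zero_le _) hi
      · rw [Finsupp.notMem_support_iff.1 hi]
        exact Nat.zero_le _
    have h2 : s.degree ≤ (f k).totalDegree := le_totalDegree hs
    have h3 : (f k).totalDegree ≤ ∑ k, (f k).totalDegree :=
      Finset.single_le_sum (f := fun k => (f k).totalDegree) (fun j _ => Nat.zero_le _)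
        (Finset.mem_univ k)
    omega
  refine ⟨Mon n D, Idx n D r, inferInstance, inferInstance, quad D f, totalDegree_quad f,
    ⟨Sum.inl (Sum.inl ()), ?_⟩, ⟨?_⟩⟩
  · change (X 0 - 1 : MvPolynomial (Mon n D) K) ≠ 0
    intro h
    have h1 := congrArg (eval (fun _ => (0 : K))) h
    rw [map_sub, eval_X, map_one, map_zero, zero_sub] at h1
    exact neg_ne_zero.2 one_ne_zero h1
  · exact (quadEquiv f hD hbd).trans ((Ideal.quotientEquivAlgOfEq K hker.symm).trans
      (Ideal.quotientKerAlgEquivOfSurjective hp))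

theorem dim_quotient_lt {K : Type} [Field K] {σ : Type} [Fintype σ]
    (I : Ideal (MvPolynomial σ K)) (hI : ∃ x ∈ I, x ≠ 0) :
    topologicalKrullDim (Spec (.of (MvPolynomial σ K ⧸ I))) < (Fintype.card σ : ℕ) := by
  change topologicalKrullDim (PrimeSpectrum (MvPolynomial σ K ⧸ I)) < _
  rw [PrimeSpectrum.topologicalKrullDim_eq_ringKrullDim]
  obtain ⟨k, hkI, hk⟩ := hI
  have h1 : ringKrullDim (MvPolynomial σ K ⧸ I) ≤
      ringKrullDim (MvPolynomial σ K ⧸ Ideal.span {k}) := by
    have hle : Ideal.span {k} ≤ I := by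
      rw [Ideal.span_le, Set.singleton_subset_iff]
      exact hkI
    exact ringKrullDim_le_of_surjective (Ideal.Quotient.factor hle)
      (Ideal.Quotient.factor_surjective hle)
  have h2 : ringKrullDim (MvPolynomial σ K ⧸ Ideal.span {k}) + 1 ≤
      ringKrullDim (MvPolynomial σ K) :=
    ringKrullDim_quotient_succ_le_of_nonZeroDivisor (mem_nonZeroDivisors_of_ne_zero hk)
  have h3 : ringKrullDim (MvPolynomial σ K) = (Fintype.card σ : ℕ) := by
    rw [MvPolynomial.ringKrullDim_of_isNoetherianRing, ringKrullDim_eq_zero_of_field, zero_add,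
      Nat.card_eq_fintype_card]
  rw [h3] at h2
  refine lt_of_le_of_lt h1 ?_
  generalize ringKrullDim (MvPolynomial σ K ⧸ Ideal.span {k}) = d at h2
  induction d with
  | bot => exact WithBot.bot_lt_coe _
  | coe d =>
    induction d with
    | top =>
      exfalso
      have h4 : ((⊤ : ℕ∞) : WithBot ℕ∞) + 1 = ((⊤ : ℕ∞) : WithBot ℕ∞) := rfl
      rw [h4] at h2
      have h5 : ((⊤ : ℕ∞) : WithBot ℕ∞) ≤ ((Fintype.card σ : ℕ∞) : WithBot ℕ∞) := h2
      rw [WithBot.coe_le_coe, top_le_iff] at h5
      exact ENat.coe_ne_top _ h5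
    | coe d =>
      have h5 : ((d + 1 : ℕ) : WithBot ℕ∞) ≤ ((Fintype.card σ : ℕ) : WithBot ℕ∞) := by
        refine le_trans (le_of_eq ?_) h2
        push_cast
        rfl
      have h6 : d + 1 ≤ Fintype.card σ := by exact_mod_cast h5
      have h7 : ((d : ℕ) : WithBot ℕ∞) < ((Fintype.card σ : ℕ) : WithBot ℕ∞) := by
        exact_mod_cast h6
      exact h7

end Pool.Agent.R908.SS
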